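import Pool.Agent.Q117.CW.Pattern

/-!
# Covering an interval except for a prescribed set: the combinatorial part
-/

set_option autoImplicit false

namespace Pool.Agent.Q117.GP

open Finset
open Pool.Agent.Q117.CW (crt avoid)

/-- an injective choice -/
lemma assign (P : Finset ℕ) (Bad : ℕ → Finset ℕ) (k : ℕ) (U : Finset ℕ) (hbad : ∀ u ∈ U, (Bad u).card ≤ k)
    (hcard : U.card + k ≤ P.card) : ∃ f : ℕ → ℕ, (∀ u ∈ U, f u ∈ P ∧ f u ∉ Bad u) ∧
      (∀ u ∈ U, ∀ v ∈ U, f u = f v → u = v) := by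
  classical
  induction U using Finset.induction_on with
  | empty => exact ⟨fun _ => 0, by simp, by simp⟩
  | insert u U hu ih =>
    rw [card_insert_of_notMem hu] at hcard
    obtain ⟨f, hf1, hf2⟩ := ih (fun v hv => hbad v (mem_insert_of_mem hv)) (by omega)
    have h1 : (U.image f ∪ Bad u).card < P.card := by
      have h2 := card_union_le (U.image f) (Bad u)
      have h3 : (U.image f).card ≤ U.card := card_image_le
      have h4 := hbad u (mem_insert_self _ _)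
      omega
    obtain ⟨q, hq1, hq2⟩ := exists_mem_notMem_of_card_lt_card h1
    rw [mem_union, not_or] at hq2
    have hne : ∀ v ∈ U, v ≠ u := fun v hv h => hu (h ▸ hv)
    refine ⟨Function.update f u q, ?_, ?_⟩
    · intro v hv
      rw [mem_insert] at hv
      rcases hv with rfl | hv
      · rw [Function.update_self]
        exact ⟨hq1, hq2.2⟩
      · rw [Function.update_of_ne (hne v hv)]
        exact hf1 v hv
    · intro v hv w hw he
      rw [mem_insert] at hv hw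
      rcases hv with rfl | hv <;> rcases hw with rfl | hw
      · rfl
      · rw [Function.update_self, Function.update_of_ne (hne w hw)] at he
        exact absurd (mem_image.2 ⟨w, hw, he.symm⟩) hq2.1
      · rw [Function.update_self, Function.update_of_ne (hne v hv)] at he
        exact absurd (mem_image.2 ⟨v, hv, he⟩) hq2.1
      · rw [Function.update_of_ne (hne v hv), Function.update_of_ne (hne w hw)] at he
        exact hf2 v hv w hw he

/-- a number below `y ^ 2` has at most one prime factor greater than `y` -/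
lemma one_large (d y Y : ℕ) (hd : d ≠ 0) (hdy : d < y ^ 2) : ((Ioc y Y).filter (fun p => p.Prime ∧ p ∣ d)).card ≤ 1 := by
  rw [card_le_one]
  intro p hp q hq
  rw [mem_filter, mem_Ioc] at hp hq
  by_contra hne
  have h1 : p * q ∣ d := Nat.Coprime.mul_dvd_of_dvd_of_dvd ((Nat.coprime_primes hp.2.1 hq.2.1).2 hne) hp.2.2 hq.2.2
  have h2 := Nat.le_of_dvd (Nat.pos_of_ne_zero hd) h1
  have h3 : y * y ≤ p * q := Nat.mul_le_mul hp.1.1.le hq.1.1.le
  nlinarith

lemma dvd_dist {p u t r : ℕ} (h1 : p ∣ r + u) (h2 : p ∣ r + t) : p ∣ (u - t) + (t - u) := by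
  have h3 : r + u ≡ r + t [MOD p] := ((Nat.modEq_zero_iff_dvd).2 h1).trans ((Nat.modEq_zero_iff_dvd).2 h2).symm
  have h4 : u ≡ t [MOD p] := Nat.ModEq.add_left_cancel' r h3
  rcases le_total u t with h | h
  · rw [Nat.sub_eq_zero_of_le h, zero_add]
    exact (Nat.modEq_iff_dvd' h).1 h4
  · rw [Nat.sub_eq_zero_of_le h, add_zero]
    exact (Nat.modEq_iff_dvd' h).1 h4.symm

/-- the combinatorial part of the covering -/
lemma classes (k y' y : ℕ) (hyy : y' ≤ y) (S S' : Finset ℕ) (ps Ht : ℕ) (T : Finset ℕ) (hT : T.card = k)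
    (hTH : ∀ t ∈ T, t ≤ Ht) (hHt : Ht < y' ^ 2) (b : ℕ → ℕ)
    (hb : ∀ p : ℕ, p.Prime → p ≤ y' → p ∉ S ∪ S' → p ≠ ps → b p < p ∧ ∀ t ∈ T, ¬ t ≡ b p [MOD p])
    (hS' : ∀ q ∈ S', k < q) (hky : k ≤ y') (U : Finset ℕ)
    (hU : ∀ s ≤ Ht, s ∉ T → (∀ p : ℕ, p.Prime → p ≤ y' → p ∉ S ∪ S' → p ≠ ps → ¬ s ≡ b p [MOD p]) → s ∈ U)
    (hUT : ∀ u ∈ U, u ∉ T ∧ u ≤ Ht)
    (hcard : U.card + k ≤ ((Ioc y' y).filter (fun p => p.Prime ∧ p ∉ S ∧ p ∉ S' ∧ p ≠ ps)).card) :
    ∃ a0 : ℕ, ∀ s ≤ Ht, ((∀ p : ℕ, p.Prime → p ≤ y → p ∉ S → p ≠ ps → ¬ p ∣ a0 + s) ↔ s ∈ T) := by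
  classical
  obtain ⟨P, hP⟩ : ∃ P, P = (Ioc y' y).filter (fun p => p.Prime ∧ p ∉ S ∧ p ∉ S' ∧ p ≠ ps) := ⟨_, rfl⟩
  rw [← hP] at hcard
  obtain ⟨Bad, hBad⟩ : ∃ Bad : ℕ → Finset ℕ, Bad = fun u => T.biUnion (fun t =>
    (Ioc y' y).filter (fun p => p.Prime ∧ p ∣ (u - t) + (t - u))) := ⟨_, rfl⟩
  have hbadc : ∀ u ∈ U, (Bad u).card ≤ k := by
    intro u hu
    rw [hBad]
    refine card_biUnion_le.trans ?_
    calc ∑ t ∈ T, ((Ioc y' y).filter (fun p => p.Prime ∧ p ∣ (u - t) + (t - u))).card ≤ ∑ t ∈ T, 1 := by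
          apply sum_le_sum
          intro t ht
          have h1 : u ≠ t := fun h => (hUT u hu).1 (h ▸ ht)
          have h2 := (hUT u hu).2
          have h3 := hTH t ht
          apply one_large
          · omega
          · omega
      _ = k := by rw [sum_const, hT, smul_eq_mul, mul_one]
  obtain ⟨f, hf1, hf2⟩ := assign P Bad k U hbadc hcard
  have hPm : ∀ p, p ∈ P ↔ (y' < p ∧ p ≤ y) ∧ p.Prime ∧ p ∉ S ∧ p ∉ S' ∧ p ≠ ps := by
    intro p
    rw [hP, mem_filter, mem_Ioc]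
  have hex : ∀ p : ℕ, ∃ r : ℕ, p.Prime → p ≤ y → p ∉ S → p ≠ ps → ((∀ t ∈ T, ¬ p ∣ r + t) ∧
      (p ≤ y' → p ∉ S' → ∀ s, s ≡ b p [MOD p] → p ∣ r + s) ∧ (∀ u ∈ U, f u = p → p ∣ r + u)) := by
    intro p
    by_cases hp : p.Prime
    swap
    · exact ⟨0, fun h => absurd h hp⟩
    by_cases hpS : p ∈ S
    · exact ⟨0, fun _ _ h => absurd hpS h⟩
    by_cases hpps : p = ps
    · exact ⟨0, fun _ _ _ h => absurd hpps h⟩
    by_cases hpy : p ≤ y
    swap
    · exact ⟨0, fun _ h => absurd h hpy⟩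
    by_cases hpS' : p ∈ S'
    · obtain ⟨r, hr⟩ := avoid T p (by rw [hT]; exact hS' p hpS')
      refine ⟨r, fun _ _ _ _ => ⟨hr, fun _ h => absurd hpS' h, ?_⟩⟩
      intro u hu hfu
      have := (hf1 u hu).1
      rw [hfu, hPm] at this
      exact absurd hpS' this.2.2.2.1
    by_cases hpy' : p ≤ y'
    · obtain ⟨h1, h2⟩ := hb p hp hpy' (by rw [mem_union, not_or]; exact ⟨hpS, hpS'⟩) hpps
      have key : ∀ s, p ∣ p - b p + s → s ≡ b p [MOD p] := by
        intro s hs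
        have h3 : p - b p + s ≡ p - b p + b p [MOD p] := by
          rw [Nat.sub_add_cancel h1.le]
          exact ((Nat.modEq_zero_iff_dvd).2 hs).trans ((Nat.modEq_zero_iff_dvd).2 dvd_rfl).symm
        exact Nat.ModEq.add_left_cancel' _ h3
      refine ⟨p - b p, fun _ _ _ _ => ⟨?_, ?_, ?_⟩⟩
      · intro t ht hd
        exact h2 t ht (key t hd)
      · intro _ _ s hs
        have h3 : p - b p + s ≡ p - b p + b p [MOD p] := Nat.ModEq.add_left _ hs
        rw [Nat.sub_add_cancel h1.le] at h3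
        exact (Nat.modEq_zero_iff_dvd).1 (h3.trans ((Nat.modEq_zero_iff_dvd).2 dvd_rfl))
      · intro u hu hfu
        have := (hf1 u hu).1
        rw [hfu, hPm] at this
        omega
    · by_cases hu : ∃ u ∈ U, f u = p
      · obtain ⟨u, hu, hfu⟩ := hu
        have h0 : p ∣ p - u % p + u := by
          have h3 : p - u % p + u ≡ p - u % p + u % p [MOD p] := Nat.ModEq.add_left _ (Nat.mod_modEq u p).symm
          rw [Nat.sub_add_cancel (Nat.mod_lt u hp.pos).le] at h3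
          exact (Nat.modEq_zero_iff_dvd).1 (h3.trans ((Nat.modEq_zero_iff_dvd).2 dvd_rfl))
        refine ⟨p - u % p, fun _ _ _ _ => ⟨?_, fun h => absurd h hpy', ?_⟩⟩
        · intro t ht hd
          apply (hf1 u hu).2
          rw [hfu, hBad, mem_biUnion]
          refine ⟨t, ht, ?_⟩
          rw [mem_filter, mem_Ioc]
          exact ⟨⟨by omega, hpy⟩, hp, dvd_dist h0 hd⟩
        · intro v hv hfv
          rw [hf2 v hv u hu (hfv.trans hfu.symm)]
          exact h0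
      · obtain ⟨r, hr⟩ := avoid T p (by rw [hT]; omega)
        refine ⟨r, fun _ _ _ _ => ⟨hr, fun h => absurd h hpy', ?_⟩⟩
        intro u huU hfu
        exact absurd ⟨u, huU, hfu⟩ hu
  choose r hr using hex
  obtain ⟨a0, ha0⟩ := crt y r
  refine ⟨a0, ?_⟩
  intro s hs
  have hdiv : ∀ p : ℕ, p.Prime → p ≤ y → ∀ v : ℕ, p ∣ a0 + v ↔ p ∣ r p + v := by
    intro p hp hpy v
    exact ((ha0 p hp hpy).add_right v).dvd_iff dvd_rfl
  constructor
  · intro h
    by_contra hsT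
    by_cases hsU : s ∈ U
    · have h1 := (hPm _).1 (hf1 s hsU).1
      apply h (f s) h1.2.1 h1.1.2 h1.2.2.1 h1.2.2.2.2
      rw [hdiv _ h1.2.1 h1.1.2]
      exact (hr (f s) h1.2.1 h1.1.2 h1.2.2.1 h1.2.2.2.2).2.2 s hsU rfl
    · apply hsU
      apply hU s hs hsT
      intro p hp hpy' hpS hpps hmod
      rw [mem_union, not_or] at hpS
      have hpy : p ≤ y := hpy'.trans hyy
      apply h p hp hpy hpS.1 hpps
      rw [hdiv p hp hpy]
      exact (hr p hp hpy hpS.1 hpps).2.1 hpy' hpS.2 s hmod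
  · intro hsT p hp hpy hpS hpps
    rw [hdiv p hp hpy]
    exact (hr p hp hpy hpS hpps).1 s hsT

end Pool.Agent.Q117.GP
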