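import Mathlib

/-!
# Numerical facts: the primes of `(n/8, n]`, iterated logarithms
-/

set_option autoImplicit false

namespace Pool.Agent.Q117.GP

open Finset Filter

/-- the number of the primes in `(n/8, n]` -/
lemma primes_many : ∃ n₀ : ℕ, ∀ n : ℕ, n₀ ≤ n → (n : ℝ) / (4 * Real.log n) ≤ (((Ioc (n / 8) n).filter Nat.Prime).card : ℝ) := by
  have ev1 : ∀ᶠ x : ℝ in atTop, 2 * Real.sqrt x * Real.log x ≤ 1 / 40 * x := by
    have h1 := (isLittleO_log_rpow_atTop (r := 1 / 4) (by norm_num)).bound (show (0 : ℝ) < 1 by norm_num)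
    filter_upwards [h1, eventually_ge_atTop (80 ^ 4 : ℝ)] with x hx hx2
    have hx0 : (0 : ℝ) < x := by linarith [show (0 : ℝ) < 80 ^ 4 by norm_num]
    have hl : 0 ≤ Real.log x := Real.log_nonneg (by linarith [show (1 : ℝ) ≤ 80 ^ 4 by norm_num])
    rw [Real.norm_of_nonneg hl, Real.norm_of_nonneg (by positivity), one_mul] at hx
    have h2 : (80 : ℝ) ≤ x ^ (1 / 4 : ℝ) := by
      have : ((80 : ℝ) ^ 4) ^ (1 / 4 : ℝ) ≤ x ^ (1 / 4 : ℝ) := Real.rpow_le_rpow (by positivity) hx2 (by norm_num)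
      rwa [← Real.rpow_natCast, ← Real.rpow_mul (by norm_num), show ((4 : ℕ) : ℝ) * (1 / 4) = 1 by norm_num, Real.rpow_one] at this
    have h3 : x = x ^ (1 / 2 : ℝ) * x ^ (1 / 4 : ℝ) * x ^ (1 / 4 : ℝ) := by
      rw [← Real.rpow_add hx0, ← Real.rpow_add hx0]
      norm_num
    have h4 : Real.sqrt x = x ^ (1 / 2 : ℝ) := Real.sqrt_eq_rpow x
    have h5 : 0 ≤ x ^ (1 / 2 : ℝ) := by positivity
    have h6 : 0 ≤ x ^ (1 / 4 : ℝ) := by positivity
    rw [h4]
    calc 2 * x ^ (1 / 2 : ℝ) * Real.log x ≤ 2 * x ^ (1 / 2 : ℝ) * x ^ (1 / 4 : ℝ) := by gcongr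
      _ ≤ 1 / 40 * (x ^ (1 / 2 : ℝ) * x ^ (1 / 4 : ℝ) * x ^ (1 / 4 : ℝ)) := by
        have : 0 ≤ x ^ (1 / 2 : ℝ) * x ^ (1 / 4 : ℝ) := by positivity
        nlinarith
      _ = 1 / 40 * x := by rw [← h3]
  have ev2 : ∀ᶠ x : ℝ in atTop, Real.log (x + 2) + 1 ≤ 1 / 40 * x := by
    have h1 := Real.isLittleO_log_id_atTop.bound (show (0 : ℝ) < 1 / 80 by norm_num)
    have h2 : Tendsto (fun x : ℝ => x + 2) atTop atTop := tendsto_atTop_add_const_right _ _ tendsto_id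
    filter_upwards [h2.eventually h1, eventually_ge_atTop (1000 : ℝ)] with x hx hx2
    rw [Real.norm_of_nonneg (Real.log_nonneg (by linarith)), id, Real.norm_of_nonneg (by linarith)] at hx
    linarith
  have h3 := tendsto_natCast_atTop_atTop (R := ℝ) |>.eventually (ev1.and (ev2.and (eventually_ge_atTop (2 : ℝ))))
  obtain ⟨n₀, hn₀⟩ := eventually_atTop.1 h3
  refine ⟨n₀, ?_⟩
  intro n hn
  obtain ⟨g1, g2, g3⟩ := hn₀ n hn
  have hn0 : (0 : ℝ) < n := by linarith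
  have hln : 0 < Real.log n := Real.log_pos (by linarith)
  have h4 := Chebyshev.theta_ge' (x := (n : ℝ)) (by linarith)
  have h5 := Chebyshev.theta_le_log4_mul_x (x := ((n / 8 : ℕ) : ℝ)) (Nat.cast_nonneg _)
  have h6 : ((n / 8 : ℕ) : ℝ) ≤ n / 8 := by
    have := Nat.cast_div_le (α := ℝ) (m := n) (n := 8)
    exact_mod_cast this
  have hlog4 : Real.log 4 = 2 * Real.log 2 := by
    rw [show (4 : ℝ) = 2 ^ 2 by norm_num, Real.log_pow]
    norm_num
  have hl2 := Real.log_two_gt_d9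
  have hl2' := Real.log_two_lt_d9
  have h7 : Chebyshev.theta (n : ℝ) = ∑ p ∈ (Icc 0 n).filter Nat.Prime, Real.log p := by
    rw [Chebyshev.theta_eq_sum_Icc, Nat.floor_natCast]
  have h8 : Chebyshev.theta ((n / 8 : ℕ) : ℝ) = ∑ p ∈ (Icc 0 (n / 8)).filter Nat.Prime, Real.log p := by
    rw [Chebyshev.theta_eq_sum_Icc, Nat.floor_natCast]
  have h9 : (Icc 0 n).filter Nat.Prime = (Icc 0 (n / 8)).filter Nat.Prime ∪ (Ioc (n / 8) n).filter Nat.Prime := by
    ext p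
    rw [mem_union, mem_filter, mem_filter, mem_filter, mem_Icc, mem_Icc, mem_Ioc]
    have : n / 8 ≤ n := Nat.div_le_self _ _
    constructor
    · rintro ⟨⟨_, h1⟩, h2⟩
      by_cases h : p ≤ n / 8
      · exact Or.inl ⟨⟨by omega, h⟩, h2⟩
      · exact Or.inr ⟨⟨by omega, h1⟩, h2⟩
    · rintro (⟨⟨_, h1⟩, h2⟩ | ⟨⟨h0, h1⟩, h2⟩)
      · exact ⟨⟨by omega, by omega⟩, h2⟩
      · exact ⟨⟨by omega, h1⟩, h2⟩
  have h10 : Disjoint ((Icc 0 (n / 8)).filter Nat.Prime) ((Ioc (n / 8) n).filter Nat.Prime) := by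
    rw [disjoint_left]
    intro p hp hp2
    rw [mem_filter, mem_Icc] at hp
    rw [mem_filter, mem_Ioc] at hp2
    omega
  rw [h9, sum_union h10, ← h8] at h7
  have h11 : ∑ p ∈ (Ioc (n / 8) n).filter Nat.Prime, Real.log p ≤ (((Ioc (n / 8) n).filter Nat.Prime).card : ℝ) * Real.log n := by
    rw [← nsmul_eq_mul]
    apply sum_le_card_nsmul
    intro p hp
    rw [mem_filter, mem_Ioc] at hp
    apply Real.log_le_log
    · exact_mod_cast hp.2.pos
    · exact_mod_cast hp.1.2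
  have h12 : (n : ℝ) / 4 ≤ (((Ioc (n / 8) n).filter Nat.Prime).card : ℝ) * Real.log n := by
    refine le_trans ?_ h11
    have h13 : Real.log 4 * ((n / 8 : ℕ) : ℝ) ≤ Real.log 4 * (n / 8) := by
      apply mul_le_mul_of_nonneg_left h6
      rw [hlog4]
      linarith
    rw [hlog4] at h13 h5
    nlinarith
  rw [div_le_iff₀ (by positivity)]
  nlinarith

end Pool.Agent.Q117.GP
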