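import Pool.Agent.Q117.GP.Rsurv
import Pool.Agent.Q117.GP.Classes
import Pool.Agent.Q117.GP.Num
import Pool.Agent.Q117.CB.Master
import Pool.Agent.Q253.Thin.Int
import Pool.Agent.H378R2.Defs

/-!
# Covering the interval `[0, c R(X)]` except for a prescribed set

`R(X) = log X log₂ X log₄ X / (log₃ X)²` is Rankin's function. For every admissible set `H` of `k` integers `≤ c R(X)` there is a residue
class `a` modulo the product of (almost all) primes `≤ (log X) / 1000` such that for `s ≤ c R(X)` the number `a + s` is prime to the modulus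
if and only if `s ∈ H`.
-/

set_option autoImplicit false
set_option maxHeartbeats 4000000

namespace Pool.Agent.Q117.GP

open Finset Filter
open Pool.Agent.H378R2 (GoodS GoodP WW PW yy z2)
open Pool.Agent.Q117.CW (shiftZ shiftZ_card shift_not)
open Pool.Agent.Q253.Thin (SysZ VZ_low int_lower IS)
open Pool.Agent.Y843.HS (Pr VV Pr_mem Pr_prime)

/-- for every prime `p` some translate of `H` avoids the multiples of `p` -/
def Adm (H : Finset ℕ) : Prop := ∀ p : ℕ, p.Prime → ∃ r : ℕ, ∀ h ∈ H, ¬ p ∣ r + h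

/-- Rankin's function -/
noncomputable def Rk (X : ℝ) : ℝ :=
  Real.log X * Real.log (Real.log X) * Real.log (Real.log (Real.log (Real.log X))) / (Real.log (Real.log (Real.log X))) ^ 2

lemma shift_sys {k : ℕ} {H : Finset ℕ} (hc : H.card = k) (ha : Adm H) : SysZ k (shiftZ H) where
  card := fun p hp => (shiftZ_card H p hp.pos).trans hc.le
  loc := by
    intro p hp
    obtain ⟨r, hr⟩ := ha p hp
    have hsub : shiftZ H p ⊆ range p := filter_subset _ _
    have h1 : shiftZ H p ⊂ range p := by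
      refine (Finset.ssubset_iff_of_subset hsub).2 ⟨r % p, mem_range.2 (Nat.mod_lt _ hp.pos), ?_⟩
      rw [shift_not H p r hp.pos]
      exact hr
    have := card_lt_card h1
    rwa [card_range] at this
  lt := by
    intro p hp c hc
    exact mem_range.1 (mem_filter.1 hc).1

/-- a translate of an admissible set without small prime factors -/
theorem shift_ex (k : ℕ) (hk : 1 ≤ k) : ∃ t : ℕ, 1 ≤ t ∧ ∃ L₀ : ℕ, ∀ L : ℕ, L₀ ≤ L → ∀ H : Finset ℕ, H.card = k → Adm H →
    ∃ t₀ : ℕ, 1 ≤ t₀ ∧ t₀ ≤ L ∧ ∀ h ∈ H, ∀ p : ℕ, p.Prime → (p : ℝ) ≤ (L : ℝ) ^ (1 / (t : ℝ)) → ¬ p ∣ t₀ + h := by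
  classical
  obtain ⟨t, ht, c, hc, G⟩ := int_lower k hk
  obtain ⟨X₀, H1⟩ := G 1 one_pos
  obtain ⟨cV, hcV, hV⟩ := VZ_low k hk
  refine ⟨t, ht, max X₀ 2, ?_⟩
  intro L hL H hcard hadm
  have hL2 : 2 ≤ L := (le_max_right _ _).trans hL
  have sys := shift_sys hcard hadm
  have h1 := H1 L ((le_max_left _ _).trans hL) (shiftZ H) sys 0 L (by simp)
  have h2 := hV L hL2 (shiftZ H) sys
  have hlL : 0 < Real.log L := Real.log_pos (by exact_mod_cast (by omega : 1 < L))
  have hL0 : (0 : ℝ) < L := by exact_mod_cast (by omega : 0 < L)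
  have h3 : 0 < VV (shiftZ H) 0 L := lt_of_lt_of_le (by positivity) h2
  have h4 : (0 : ℝ) < ((IS t L 0 L (shiftZ H)).card : ℝ) := by
    refine lt_of_lt_of_le ?_ h1
    push_cast
    rw [sub_zero]
    positivity
  obtain ⟨n, hn⟩ := card_pos.1 (by exact_mod_cast h4 : 0 < (IS t L 0 L (shiftZ H)).card)
  unfold IS at hn
  rw [mem_filter, mem_Ioc] at hn
  refine ⟨n, hn.1.1, hn.1.2, ?_⟩
  intro h hh p hp hpL
  exact (shift_not H p n hp.pos).1 (hn.2 p hp hpL) h hh

/-- the eventual inequalities -/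
theorem ev_all (c : ℝ) (hc : 0 < c) (t : ℕ) (ht : 1 ≤ t) (K y0 : ℝ) (hK : 1 ≤ K) : ∃ X0 : ℝ, ∀ X : ℝ, X0 ≤ X →
    ∀ T A B D : ℝ, T = Real.log X → A = Real.log T → B = Real.log A → D = Real.log B →
    160000 ≤ A ∧ 1 ≤ B ∧ 2 * Real.log 2 ≤ B ∧ 1 ≤ D ∧ 2 * Real.log 2 ≤ D ∧ D ≤ B ∧ 2 * Real.log 20000 ≤ A ∧
      B ^ 2 ≤ c * A ∧ 80000 ≤ T ∧ A ^ 2 ≤ T / 20001 ∧ K * A ≤ T ∧ K * A ^ 2 ≤ T ^ (1 / (t : ℝ)) ∧ 20001 * (y0 + 2) ≤ T ∧ Real.exp 100 ≤ X := by
  have hlog := Real.tendsto_log_atTop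
  have hA : Tendsto (fun X : ℝ => Real.log (Real.log X)) atTop atTop := hlog.comp hlog
  have hB : Tendsto (fun X : ℝ => Real.log (Real.log (Real.log X))) atTop atTop := hlog.comp hA
  have hD : Tendsto (fun X : ℝ => Real.log (Real.log (Real.log (Real.log X)))) atTop atTop := hlog.comp hB
  have ht0 : (0 : ℝ) < t := by exact_mod_cast ht
  -- in terms of A
  have e1 : ∀ᶠ x : ℝ in atTop, (Real.log x) ^ 2 ≤ c * x := by
    have h1 := (Real.isLittleO_pow_log_id_atTop (n := 2)).bound hc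
    filter_upwards [h1, eventually_ge_atTop (1 : ℝ)] with x h2 h3
    rwa [Real.norm_of_nonneg (pow_nonneg (Real.log_nonneg h3) 2), id, Real.norm_of_nonneg (by linarith)] at h2
  have e2 : ∀ᶠ x : ℝ in atTop, (Real.log x) ^ 2 ≤ x / 20001 := by
    have h1 := (Real.isLittleO_pow_log_id_atTop (n := 2)).bound (show (0 : ℝ) < 1 / 20001 by norm_num)
    filter_upwards [h1, eventually_ge_atTop (1 : ℝ)] with x h2 h3
    rw [Real.norm_of_nonneg (pow_nonneg (Real.log_nonneg h3) 2), id, Real.norm_of_nonneg (by linarith)] at h2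
    linarith
  have e3 : ∀ᶠ x : ℝ in atTop, K * Real.log x ≤ x := by
    have h1 := Real.isLittleO_log_id_atTop.bound (show (0 : ℝ) < 1 / K by positivity)
    filter_upwards [h1, eventually_ge_atTop (1 : ℝ)] with x h2 h3
    rw [Real.norm_of_nonneg (Real.log_nonneg h3), id, Real.norm_of_nonneg (by linarith)] at h2
    calc K * Real.log x ≤ K * (1 / K * x) := by gcongr
      _ = x := by field_simp
  have e4 : ∀ᶠ x : ℝ in atTop, K * (Real.log x) ^ 2 ≤ x ^ (1 / (t : ℝ)) := by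
    have h1 := (isLittleO_log_rpow_rpow_atTop (s := 1 / (t : ℝ)) 2 (by positivity)).bound (show (0 : ℝ) < 1 / K by positivity)
    filter_upwards [h1, eventually_ge_atTop (1 : ℝ)] with x h2 h3
    have h4 : 0 ≤ Real.log x := Real.log_nonneg h3
    rw [Real.norm_of_nonneg (by positivity), Real.norm_of_nonneg (by positivity)] at h2
    have h5 : Real.log x ^ (2 : ℝ) = Real.log x ^ 2 := by exact_mod_cast Real.rpow_natCast (Real.log x) 2
    rw [h5] at h2
    calc K * (Real.log x) ^ 2 ≤ K * (1 / K * x ^ (1 / (t : ℝ))) := by gcongr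
      _ = x ^ (1 / (t : ℝ)) := by field_simp
  have e5 : ∀ᶠ x : ℝ in atTop, Real.log x ≤ x := by
    filter_upwards [eventually_gt_atTop (0 : ℝ)] with x hx
    have := Real.log_le_sub_one_of_pos hx
    linarith
  have hev := ((((hA.eventually_ge_atTop 160000).and (hB.eventually_ge_atTop 1)).and
    ((hB.eventually_ge_atTop (2 * Real.log 2)).and (hD.eventually_ge_atTop 1))).and
    ((hD.eventually_ge_atTop (2 * Real.log 2)).and (hB.eventually e5))).and
    ((((hA.eventually_ge_atTop (2 * Real.log 20000)).and (hA.eventually e1)).and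
    ((hlog.eventually_ge_atTop 80000).and (hlog.eventually e2))).and
    (((hlog.eventually e3).and (hlog.eventually e4)).and
    ((hlog.eventually_ge_atTop (20001 * (y0 + 2))).and (eventually_ge_atTop (Real.exp 100)))))
  obtain ⟨X0, hX0⟩ := eventually_atTop.1 hev
  refine ⟨X0, ?_⟩
  intro X hX T A B D hT hA' hB' hD'
  obtain ⟨⟨⟨⟨a1, a2⟩, a3, a4⟩, a5, a6⟩, ⟨⟨a7, a8⟩, a9, a10⟩, ⟨a11, a12⟩, a13, a14⟩ := hX0 X hX
  subst hT hA' hB' hD'
  exact ⟨a1, a2, a3, a4, a5, a6, a7, a8, a9, a10, a11, a12, a13, a14⟩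

/-- **Covering `[0, c R(X)]` except for a prescribed admissible set.** -/
theorem cover (k : ℕ) (hk : 1 ≤ k) : ∃ c : ℝ, 0 < c ∧ ∃ X0 : ℝ, ∀ X : ℝ, X0 ≤ X → ∀ (ps : ℕ) (S : Finset ℕ),
    GoodP 2 ps → GoodS X S → ∀ H : Finset ℕ, H.card = k → (∀ h ∈ H, (h : ℝ) ≤ c * Rk X) → Adm H →
    ∃ a : ℕ, ∀ s : ℕ, (s : ℝ) ≤ c * Rk X → ((a + s).Coprime (WW X S ps) ↔ s ∈ H) := by
  classical
  obtain ⟨C, hC, y₀, hrs⟩ := rsurvG k
  obtain ⟨t, ht, L₀, hsh⟩ := shift_ex k hk
  obtain ⟨n₀, hpr⟩ := primes_many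
  have ht0 : (0 : ℝ) < t := by exact_mod_cast ht
  obtain ⟨c, hcdef⟩ : ∃ c : ℝ, c = min (1 / 2) (1 / (4000000 * C)) := ⟨_, rfl⟩
  have hc0 : 0 < c := by rw [hcdef]; exact lt_min (by norm_num) (by positivity)
  have hc1 : c ≤ 1 / 2 := by rw [hcdef]; exact min_le_left _ _
  have hc2 : c ≤ 1 / (4000000 * C) := by rw [hcdef]; exact min_le_right _ _
  obtain ⟨K, hKdef⟩ : ∃ K : ℝ, K = 80000 * (4 * t * k + k + 4) := ⟨_, rfl⟩
  have hK1 : 1 ≤ K := by
    rw [hKdef]
    have : (0 : ℝ) ≤ 4 * t * k + k := by positivity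
    linarith
  obtain ⟨X0, hev⟩ := ev_all (c / 2) (by positivity) t ht K ((y₀ : ℝ) + n₀ + L₀ + k) hK1
  refine ⟨c, hc0, X0, ?_⟩
  intro X hX ps S hps hS H hHc hHle hadm
  obtain ⟨T, hT⟩ : ∃ T, T = Real.log X := ⟨_, rfl⟩
  obtain ⟨A, hA⟩ : ∃ A, A = Real.log T := ⟨_, rfl⟩
  obtain ⟨B, hB⟩ : ∃ B, B = Real.log A := ⟨_, rfl⟩
  obtain ⟨D, hD⟩ : ∃ D, D = Real.log B := ⟨_, rfl⟩
  obtain ⟨a1, a2, a3, a4, a5, a6, a7, a8, a9, a10, a11, a12, a13, a14⟩ := hev X hX T A B D hT hA hB hD
  have hR : Rk X = T * A * D / B ^ 2 := by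
    unfold Rk
    rw [← hT, ← hA, ← hB, ← hD]
  have hT0 : 0 < T := by linarith
  have hA0 : 0 < A := by linarith
  have hB0 : 0 < B := by linarith
  have hD0 : 0 < D := by linarith
  have hTe : T = Real.exp A := by rw [hA, Real.exp_log hT0]
  -- y and y'
  obtain ⟨y, hy⟩ : ∃ y, y = yy X := ⟨_, rfl⟩
  have hyT : (y : ℝ) ≤ T / 1000 := by
    rw [hy]
    unfold yy
    rw [← hT]
    exact Nat.floor_le (by positivity)
  have hyT2 : T / 2000 ≤ y := by
    have h1 : T / 1000 < (y : ℝ) + 1 := by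
      rw [hy]
      unfold yy
      rw [← hT]
      exact Nat.lt_floor_add_one _
    linarith
  obtain ⟨y', hy'⟩ : ∃ y', y' = y / 8 := ⟨_, rfl⟩
  have hy'y : y' ≤ y := by rw [hy']; exact Nat.div_le_self _ _
  have hy'T : (y' : ℝ) ≤ T / 8000 := by
    have : (y' : ℝ) ≤ y / 8 := by
      rw [hy']
      have := Nat.cast_div_le (α := ℝ) (m := y) (n := 8)
      exact_mod_cast this
    linarith
  have hy'T2 : T / 20000 ≤ y' := by
    have h1 : y < 8 * y' + 8 := by omega
    have h2 : (y : ℝ) < 8 * y' + 8 := by exact_mod_cast h1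
    linarith
  have hy'0 : (0 : ℝ) < y' := by linarith [show 0 < T / 20000 by positivity]
  have hsum0 : (0 : ℝ) ≤ (y₀ : ℝ) + n₀ + L₀ + k := by positivity
  have hbig : ((y₀ : ℝ) + n₀ + L₀ + k) + 2 ≤ T / 20000 := by linarith
  have hyy0 : y₀ ≤ y' := by
    have h1 : (y₀ : ℝ) ≤ y' := by linarith [Nat.cast_nonneg (α := ℝ) n₀, Nat.cast_nonneg (α := ℝ) L₀, Nat.cast_nonneg (α := ℝ) k]
    exact_mod_cast h1
  have hyn0 : n₀ ≤ y := by
    have h1 : (n₀ : ℝ) ≤ y' := by linarith [Nat.cast_nonneg (α := ℝ) y₀, Nat.cast_nonneg (α := ℝ) L₀, Nat.cast_nonneg (α := ℝ) k]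
    have h2 : n₀ ≤ y' := by exact_mod_cast h1
    omega
  have hky' : k ≤ y' := by
    have h1 : (k : ℝ) ≤ y' := by linarith [Nat.cast_nonneg (α := ℝ) y₀, Nat.cast_nonneg (α := ℝ) L₀, Nat.cast_nonneg (α := ℝ) n₀]
    exact_mod_cast h1
  have hly1 : Real.log y' ≤ A := by
    rw [hA]; apply Real.log_le_log hy'0; linarith
  have hlyy : Real.log y ≤ A := by
    rw [hA]; apply Real.log_le_log (by linarith [show 0 < T / 2000 by positivity]); linarith
  have hly2 : A / 2 ≤ Real.log y' := by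
    have h1 : Real.log (T / 20000) ≤ Real.log y' := Real.log_le_log (by positivity) hy'T2
    rw [Real.log_div hT0.ne' (by norm_num), ← hA] at h1
    linarith
  have hly0 : 0 < Real.log y' := by linarith
  have hly0' : 0 < Real.log y := by
    have h1 : Real.log y' ≤ Real.log y := Real.log_le_log hy'0 (by exact_mod_cast hy'y)
    linarith
  have hl2y1 : Real.log (Real.log y') ≤ B := by rw [hB]; exact Real.log_le_log hly0 hly1
  have hl2y2 : B / 2 ≤ Real.log (Real.log y') := by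
    have h1 : Real.log (A / 2) ≤ Real.log (Real.log y') := Real.log_le_log (by positivity) hly2
    rw [Real.log_div hA0.ne' (by norm_num), ← hB] at h1
    linarith
  have hl2y0 : 0 < Real.log (Real.log y') := by linarith
  have hl3y2 : D / 2 ≤ Real.log (Real.log (Real.log y')) := by
    have h1 : Real.log (B / 2) ≤ Real.log (Real.log (Real.log y')) := Real.log_le_log (by positivity) hl2y2
    rw [Real.log_div hB0.ne' (by norm_num), ← hD] at h1
    linarith
  -- L
  obtain ⟨L, hL⟩ : ∃ L : ℕ, L = ⌊c * Rk X⌋₊ := ⟨_, rfl⟩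
  have hcR0 : 0 ≤ c * Rk X := by rw [hR]; positivity
  have hLle : (L : ℝ) ≤ c * Rk X := by rw [hL]; exact Nat.floor_le hcR0
  have hT1 : 2 * T ≤ c * Rk X := by
    rw [hR, mul_div_assoc', le_div_iff₀ (by positivity)]
    have h1 : T * B ^ 2 ≤ T * (c / 2 * A) := by gcongr
    have h2 : T * (c / 2 * A) ≤ T * (c / 2 * A) * D := by
      have : 0 ≤ T * (c / 2 * A) := by positivity
      nlinarith
    linarith [show c * (T * A * D) = 2 * (T * (c / 2 * A) * D) by ring]
  have hTL : T ≤ L := by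
    have h1 : c * Rk X < (L : ℝ) + 1 := by rw [hL]; exact Nat.lt_floor_add_one _
    linarith
  have hL0 : (0 : ℝ) < L := by linarith
  have hyH : y' ≤ 2 * L := by
    have h1 : (y' : ℝ) ≤ ((2 * L : ℕ) : ℝ) := by
      push_cast
      linarith
    exact_mod_cast h1
  have hHy : ((2 * L : ℕ) : ℝ) ≤ y' * (Real.log y') ^ 2 := by
    push_cast
    have h1 : T / 20000 * (A / 2) ^ 2 ≤ y' * (Real.log y') ^ 2 := by gcongr
    refine le_trans ?_ h1
    have h2 : c * Rk X ≤ 1 / 2 * (T * A) := by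
      rw [hR, mul_div_assoc', div_le_iff₀ (by positivity)]
      have h3 : D ≤ B ^ 2 := by nlinarith
      have h4 : c * (T * A * D) ≤ 1 / 2 * (T * A * B ^ 2) := by gcongr
      linarith [show 1 / 2 * (T * A * B ^ 2) = 1 / 2 * (T * A) * B ^ 2 by ring]
    have h5 : 0 < T * A := by positivity
    nlinarith
  have hHt : 2 * L < y' ^ 2 := by
    have h1 : ((2 * L : ℕ) : ℝ) < ((y' ^ 2 : ℕ) : ℝ) := by
      refine lt_of_le_of_lt hHy ?_
      push_cast
      have h2 : (Real.log y') ^ 2 ≤ A ^ 2 := by gcongr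
      have h3 : (Real.log y') ^ 2 < y' := by
        have : T / 20001 < T / 20000 := by
          apply div_lt_div_of_pos_left hT0 (by norm_num) (by norm_num)
        linarith
      nlinarith
    exact_mod_cast h1
  have hLL0 : L₀ ≤ L := by
    have h1 : (L₀ : ℝ) ≤ L := by
      linarith [Nat.cast_nonneg (α := ℝ) y₀, Nat.cast_nonneg (α := ℝ) k, Nat.cast_nonneg (α := ℝ) n₀]
    exact_mod_cast h1
  have hL2 : 2 ≤ L := by
    have h1 : (2 : ℝ) ≤ L := by linarith
    exact_mod_cast h1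
  have hHL : ∀ h ∈ H, h ≤ L := fun h hh => by rw [hL]; exact Nat.le_floor (hHle h hh)
  -- the shift
  obtain ⟨t₀, ht1, ht2, ht3⟩ := hsh L hLL0 H hHc hadm
  have hz : T ^ (1 / (t : ℝ)) ≤ (L : ℝ) ^ (1 / (t : ℝ)) := Real.rpow_le_rpow hT0.le hTL (by positivity)
  have hzK : K * A ^ 2 ≤ (L : ℝ) ^ (1 / (t : ℝ)) := a12.trans hz
  have hA2 : (1 : ℝ) ≤ A ^ 2 := by nlinarith
  have hrough : ∀ h ∈ H, ∀ q : ℕ, q.Prime → q ∣ t₀ + h → (L : ℝ) ^ (1 / (t : ℝ)) < q := by
    intro h hh q hq hd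
    by_contra hcon
    exact ht3 h hh q hq (not_lt.1 hcon) hd
  have hlarge : ∀ h ∈ H, ∀ q : ℕ, q.Prime → q ∣ t₀ + h → K < q := by
    intro h hh q hq hd
    have h1 := hrough h hh q hq hd
    nlinarith
  -- S'
  obtain ⟨S', hS'⟩ : ∃ S' : Finset ℕ, S' = H.biUnion (fun h => (t₀ + h).primeFactors) := ⟨_, rfl⟩
  have hS'm : ∀ q, q ∈ S' ↔ ∃ h ∈ H, q.Prime ∧ q ∣ t₀ + h := by
    intro q
    rw [hS', mem_biUnion]
    constructor
    · rintro ⟨h, hh, h1⟩
      exact ⟨h, hh, Nat.prime_of_mem_primeFactors h1, Nat.dvd_of_mem_primeFactors h1⟩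
    · rintro ⟨h, hh, h1, h2⟩
      exact ⟨h, hh, Nat.mem_primeFactors.2 ⟨h1, h2, by omega⟩⟩
  have hS'card : (S'.card : ℝ) ≤ 2 * t * k := by
    have h1 : S'.card ≤ ∑ h ∈ H, (t₀ + h).primeFactors.card := by
      rw [hS']
      exact card_biUnion_le
    have h2 : ∀ h ∈ H, (t₀ + h).primeFactors.card ≤ 2 * t := by
      intro h hh
      have h3 : (t₀ + h).primeFactors.card ≤ (t₀ + h).primeFactorsList.length := by
        unfold Nat.primeFactors
        exact List.toFinset_card_le _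
      refine h3.trans ?_
      apply Pool.Agent.Q117.CB.omega_le (H := L) (t := (t : ℝ)) (M := 2) hL2 ht0 (by omega)
      · have h4 := hHL h hh
        have h5 : t₀ + h ≤ L ^ 2 := by nlinarith
        have h6 : (L : ℝ) ^ (2 : ℝ) = ((L ^ 2 : ℕ) : ℝ) := by
          rw [show (2 : ℝ) = ((2 : ℕ) : ℝ) by norm_num, Real.rpow_natCast]
          push_cast
          ring
        rw [h6]
        exact_mod_cast h5
      · intro q hq hd
        exact (hrough h hh q hq hd).le
      · push_cast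
        linarith
    have h3 : S'.card ≤ k * (2 * t) := by
      refine h1.trans ?_
      rw [← hHc, ← smul_eq_mul]
      exact sum_le_card_nsmul _ _ _ h2
    have h4 : (S'.card : ℝ) ≤ ((k * (2 * t) : ℕ) : ℝ) := by exact_mod_cast h3
    push_cast at h4
    linarith
  have hS'sum : ∑ q ∈ S', (1 : ℝ) / q ≤ 6 / A ^ 2 := by
    have h1 : ∀ q ∈ S', (1 : ℝ) / q ≤ 1 / (K * A ^ 2) := by
      intro q hq
      obtain ⟨h, hh, h2, h3⟩ := (hS'm q).1 hq
      apply one_div_le_one_div_of_le (by positivity)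
      exact hzK.trans (hrough h hh q h2 h3).le
    have h2 := sum_le_card_nsmul _ _ _ h1
    rw [nsmul_eq_mul] at h2
    refine h2.trans ?_
    calc (S'.card : ℝ) * (1 / (K * A ^ 2)) ≤ (2 * t * k) * (1 / (K * A ^ 2)) := by gcongr
      _ = (2 * t * k / K) / A ^ 2 := by field_simp
      _ ≤ 6 / A ^ 2 := by
        gcongr
        rw [div_le_iff₀ (by positivity), hKdef]
        have : (0 : ℝ) ≤ t * k := by positivity
        have : (0 : ℝ) ≤ k := by positivity
        nlinarith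
  have hz2 : 2 ≤ z2 X := by
    have h1 : Real.log (Real.log X) ^ 3 ≤ (z2 X : ℝ) := by
      unfold z2
      exact Nat.le_ceil _
    have h2 : (2 : ℝ) ≤ Real.log (Real.log X) ^ 3 := by
      rw [← hT, ← hA]
      nlinarith [sq_nonneg A]
    have : (2 : ℝ) ≤ (z2 X : ℝ) := h2.trans h1
    exact_mod_cast this
  have hSS : ∀ q ∈ S ∪ S', q.Prime ∧ 2 < q := by
    intro q hq
    rw [mem_union] at hq
    rcases hq with hq | hq
    · exact ⟨(hS.1 q hq).1, by have := (hS.1 q hq).2.1; omega⟩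
    · obtain ⟨h, hh, h2, h3⟩ := (hS'm q).1 hq
      refine ⟨h2, ?_⟩
      have h4 := hlarge h hh q h2 h3
      have h5 : (2 : ℝ) < q := by
        have : (2 : ℝ) ≤ K := by
          rw [hKdef]
          have : (0 : ℝ) ≤ 4 * t * k + k := by positivity
          linarith
        linarith
      exact_mod_cast h5
  have hSSsum : ∑ q ∈ S ∪ S', (1 : ℝ) / q ≤ 12 / (Real.log y') ^ 2 := by
    have h1 : ∑ q ∈ S ∪ S', (1 : ℝ) / q ≤ ∑ q ∈ S, (1 : ℝ) / q + ∑ q ∈ S', (1 : ℝ) / q := by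
      rw [← sum_union_inter]
      have : 0 ≤ ∑ q ∈ S ∩ S', (1 : ℝ) / q := sum_nonneg fun q _ => by positivity
      linarith
    have h2 := hS.2
    rw [← hT, ← hA] at h2
    have h3 : (6 : ℝ) / A ^ 2 + 6 / A ^ 2 ≤ 12 / (Real.log y') ^ 2 := by
      rw [← add_div, show (6 : ℝ) + 6 = 12 by norm_num]
      apply div_le_div_of_nonneg_left (by norm_num) (by positivity)
      gcongr
    linarith
  have hps' : ps = 1 ∨ (ps.Prime ∧ 2 < ps) := hps
  -- the positions
  obtain ⟨e, he⟩ : ∃ e : Fin k → ℕ, e = fun j => H.orderEmbOfFin hHc j := ⟨_, rfl⟩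
  have heH : ∀ j, e j ∈ H := fun j => by rw [he]; exact Finset.orderEmbOfFin_mem H hHc j
  have heS : ∀ h ∈ H, ∃ j, e j = h := by
    intro h hh
    have h1 := Finset.range_orderEmbOfFin H hHc
    have h2 : h ∈ Set.range (H.orderEmbOfFin hHc) := by
      rw [h1]
      exact_mod_cast hh
    obtain ⟨j, hj⟩ := h2
    exact ⟨j, by rw [he]; exact hj⟩
  obtain ⟨b, hb1, hb2⟩ := hrs y' hyy0 (S ∪ S') ps hSS hSSsum hps' (2 * L) hyH hHy (fun j => t₀ + e j) (by
    intro j
    refine ⟨?_, ?_⟩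
    · intro p hp _ hpS _ hd
      apply hpS
      rw [mem_union]
      exact Or.inr ((hS'm p).2 ⟨e j, heH j, hp, hd⟩)
    · have := hHL (e j) (heH j)
      omega)
  -- the sets
  obtain ⟨Ts, hTs⟩ : ∃ Ts : Finset ℕ, Ts = H.image (fun h => t₀ + h) := ⟨_, rfl⟩
  have hTsm : ∀ s, s ∈ Ts ↔ ∃ h ∈ H, t₀ + h = s := by
    intro s
    rw [hTs, mem_image]
  have hTsc : Ts.card = k := by
    rw [hTs, card_image_of_injective _ (fun a b h => Nat.add_left_cancel h), hHc]
  obtain ⟨U, hUdef⟩ : ∃ U : Finset ℕ, U = (range (2 * L + 1)).filter (fun s => (∀ j, s ≠ t₀ + e j) ∧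
    ∀ p : ℕ, p.Prime → p ≤ y' → p ∉ S ∪ S' → p ≠ ps → ¬ s ≡ b p [MOD p]) := ⟨_, rfl⟩
  have hUc : (U.card : ℝ) ≤ C * ((2 * L : ℕ) : ℝ) * (Real.log (Real.log y')) ^ 2 /
      ((Real.log y') ^ 2 * Real.log (Real.log (Real.log y'))) := by
    refine le_trans ?_ hb2
    rw [hUdef]
  have hUc2 : (U.card : ℝ) ≤ T / (80000 * A) := by
    refine hUc.trans ?_
    push_cast
    calc C * (2 * (L : ℝ)) * (Real.log (Real.log y')) ^ 2 / ((Real.log y') ^ 2 * Real.log (Real.log (Real.log y')))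
        ≤ C * (2 * (c * Rk X)) * B ^ 2 / ((A / 2) ^ 2 * (D / 2)) := by gcongr
      _ = 16 * C * c * T / A := by
          rw [hR]
          field_simp
          ring
      _ ≤ 16 * C * (1 / (4000000 * C)) * T / A := by gcongr
      _ ≤ T / (80000 * A) := by
          have h1 : 16 * C * (1 / (4000000 * C)) * T / A = 16 / 4000000 * (T / A) := by
            field_simp
          have h2 : T / (80000 * A) = 1 / 80000 * (T / A) := by
            field_simp
          rw [h1, h2]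
          have : 0 < T / A := by positivity
          nlinarith
  -- available primes
  obtain ⟨P0, hP0⟩ : ∃ P0 : Finset ℕ, P0 = (Ioc y' y).filter Nat.Prime := ⟨_, rfl⟩
  obtain ⟨P, hP⟩ : ∃ P : Finset ℕ, P = (Ioc y' y).filter (fun p => p.Prime ∧ p ∉ S ∧ p ∉ S' ∧ p ≠ ps) := ⟨_, rfl⟩
  have hP0c : T / (8000 * A) ≤ (P0.card : ℝ) := by
    have h1 := hpr y hyn0
    rw [← hy', ← hP0] at h1
    refine le_trans ?_ h1
    rw [div_le_div_iff₀ (by positivity) (by positivity)]
    have h3 : T * Real.log y ≤ T * A := by gcongr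
    have h4 : T * A ≤ 2000 * y * A := by
      have : T ≤ 2000 * y := by linarith
      gcongr
    nlinarith
  have hPc : (P0.card : ℝ) - T / (80000 * A) - 2 * t * k - 1 ≤ P.card := by
    have h1 : P0 ⊆ P ∪ ((S.filter (fun q => y' < q)) ∪ (S' ∪ {ps})) := by
      intro p hp
      rw [hP0, mem_filter, mem_Ioc] at hp
      rw [mem_union, hP, mem_filter, mem_Ioc, mem_union, mem_union, mem_filter, mem_singleton]
      by_cases h1 : p ∈ S
      · exact Or.inr (Or.inl ⟨h1, hp.1.1⟩)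
      by_cases h2 : p ∈ S'
      · exact Or.inr (Or.inr (Or.inl h2))
      by_cases h3 : p = ps
      · exact Or.inr (Or.inr (Or.inr h3))
      exact Or.inl ⟨hp.1, hp.2, h1, h2, h3⟩
    have h2 : P0.card ≤ P.card + ((S.filter (fun q => y' < q)).card + (S'.card + 1)) := by
      refine (card_le_card h1).trans ((card_union_le _ _).trans ?_)
      apply Nat.add_le_add_left
      refine (card_union_le _ _).trans ?_
      apply Nat.add_le_add_left
      refine (card_union_le _ _).trans ?_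
      rw [card_singleton]
    have h3 : (P0.card : ℝ) ≤ P.card + ((S.filter (fun q => y' < q)).card + (S'.card + 1)) := by exact_mod_cast h2
    have h4 : ((S.filter (fun q => y' < q)).card : ℝ) ≤ T / (80000 * A) := by
      have h5 : ∀ q ∈ S.filter (fun q => y' < q), (1 : ℝ) / y ≤ 1 / q := by
        intro q hq
        rw [mem_filter] at hq
        have h6 := (hS.1 q hq.1).2.2
        rw [← hy] at h6
        apply one_div_le_one_div_of_le
        · exact_mod_cast (hS.1 q hq.1).1.pos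
        · exact_mod_cast h6
      have h6 := card_nsmul_le_sum _ _ _ h5
      have h7 : ∑ q ∈ S.filter (fun q => y' < q), (1 : ℝ) / q ≤ ∑ q ∈ S, (1 : ℝ) / q :=
        sum_le_sum_of_subset_of_nonneg (filter_subset _ _) (fun _ _ _ => by positivity)
      have h8 := hS.2
      rw [← hT, ← hA] at h8
      rw [nsmul_eq_mul] at h6
      have hy0 : (0 : ℝ) < y := by linarith [show 0 < T / 2000 by positivity]
      have h9 : ((S.filter (fun q => y' < q)).card : ℝ) ≤ 6 / A ^ 2 * y := by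
        have h10 := h6.trans (h7.trans h8)
        rw [mul_one_div, div_le_iff₀ hy0] at h10
        exact h10
      refine h9.trans ?_
      calc 6 / A ^ 2 * y ≤ 6 / A ^ 2 * (T / 1000) := by gcongr
        _ = 6 / 1000 * (T / A) * (1 / A) := by field_simp
        _ ≤ 6 / 1000 * (T / A) * (1 / 160000) := by
          gcongr
        _ ≤ 1 / 80000 * (T / A) := by
          have : 0 < T / A := by positivity
          nlinarith
        _ = T / (80000 * A) := by field_simp
    linarith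
  have hfinal : U.card + k ≤ P.card := by
    have h1 : (U.card : ℝ) + k ≤ P.card := by
      have h2 : K ≤ T / A := by
        rw [le_div_iff₀ hA0]
        exact a11
      have h3 : T / (80000 * A) = 1 / 80000 * (T / A) := by field_simp
      have h4 : T / (8000 * A) = 10 / 80000 * (T / A) := by field_simp; norm_num
      rw [h3] at hUc2 hPc
      rw [h4] at hP0c
      rw [hKdef] at h2
      have h5 : (0 : ℝ) ≤ t * k := by positivity
      have h6 : (0 : ℝ) ≤ k := by positivity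
      nlinarith
    exact_mod_cast h1
  rw [hP] at hfinal
  -- the combinatorial part
  obtain ⟨a0, ha0⟩ := classes k y' y hy'y S S' ps (2 * L) Ts hTsc (by
      intro s hs
      obtain ⟨h, hh, rfl⟩ := (hTsm s).1 hs
      have := hHL h hh
      omega) hHt b (by
      intro p hp hpy hpS hpps
      obtain ⟨h1, h2⟩ := hb1 p hp hpy hpS hpps
      refine ⟨h1, ?_⟩
      intro s hs
      obtain ⟨h, hh, rfl⟩ := (hTsm s).1 hs
      obtain ⟨j, rfl⟩ := heS h hh
      exact h2 j) (by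
      intro q hq
      obtain ⟨h, hh, h2, h3⟩ := (hS'm q).1 hq
      have h4 := hlarge h hh q h2 h3
      have h5 : (k : ℝ) < q := by
        have h6 : (k : ℝ) ≤ K := by
          rw [hKdef]
          have h5 : (0 : ℝ) ≤ t * k := by positivity
          have h6 : (0 : ℝ) ≤ k := by positivity
          nlinarith
        linarith
      exact_mod_cast h5) hky' U (by
      intro s hs hsT hcl
      rw [hUdef, mem_filter, mem_range]
      refine ⟨by omega, ?_, hcl⟩
      intro j hj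
      exact hsT ((hTsm s).2 ⟨e j, heH j, hj.symm⟩)) (by
      intro u hu
      rw [hUdef, mem_filter, mem_range] at hu
      refine ⟨?_, by omega⟩
      intro huT
      obtain ⟨h, hh, h1⟩ := (hTsm u).1 huT
      obtain ⟨j, rfl⟩ := heS h hh
      exact hu.2.1 j h1.symm) hfinal
  refine ⟨a0 + t₀, ?_⟩
  intro s hs
  have hsL : s ≤ L := by rw [hL]; exact Nat.le_floor hs
  have h1 := ha0 (t₀ + s) (by omega)
  have h2 : t₀ + s ∈ Ts ↔ s ∈ H := by
    rw [hTsm]
    constructor
    · rintro ⟨h, hh, he⟩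
      have : h = s := by omega
      rwa [← this]
    · intro h
      exact ⟨s, h, rfl⟩
  rw [h2] at h1
  rw [← h1, add_assoc]
  unfold WW
  rw [Nat.coprime_prod_right_iff]
  constructor
  · intro h p hp hpy hpS hpps hd
    have hmem : p ∈ PW X S ps := by
      unfold PW
      rw [mem_filter, mem_Icc, ← hy]
      exact ⟨⟨hp.pos, hpy⟩, hp, hpS, hpps⟩
    have h3 := h p hmem
    rw [Nat.coprime_comm, Nat.Prime.coprime_iff_not_dvd hp] at h3
    exact h3 hd
  · intro h p hp
    unfold PW at hp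
    rw [mem_filter, mem_Icc, ← hy] at hp
    rw [Nat.coprime_comm, Nat.Prime.coprime_iff_not_dvd hp.2.1]
    exact h p hp.2.1 hp.1.2 hp.2.2.1 hp.2.2.2

end Pool.Agent.Q117.GP
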