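import Pool.Agent.Q117.GP.Main
import Pool.Agent.Q117.CB.Master

/-!
# Patterns of almost primes: tools for the applications
-/

set_option autoImplicit false
set_option maxHeartbeats 4000000

namespace Pool.Agent.Q117.GP

open Finset Filter

/-- integers `≤ 4 X` without prime factors `≤ X ^ (1/t)` have at most `t` prime factors -/
lemma rough_omega (t : ℕ) (ht : 1 ≤ t) : ∃ X0 : ℝ, ∀ X : ℝ, X0 ≤ X → ∀ m : ℕ, 1 ≤ m → (m : ℝ) ≤ 4 * X →
    (∀ p : ℕ, p.Prime → (p : ℝ) ≤ X ^ (1 / (t : ℝ)) → ¬ p ∣ m) → m.primeFactorsList.length ≤ t := by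
  have ht0 : (0 : ℝ) < t := by exact_mod_cast ht
  obtain ⟨x, hx⟩ := eventually_atTop.1 ((tendsto_rpow_atTop (show (0 : ℝ) < 1 / (2 * t) by positivity)).eventually_ge_atTop 8)
  refine ⟨max (x + 1) 3, ?_⟩
  intro X hX m hm hmX h
  have hX3 : 3 ≤ X := (le_max_right _ _).trans hX
  have hXx : x + 1 ≤ X := (le_max_left _ _).trans hX
  obtain ⟨H, hH⟩ : ∃ H : ℕ, H = ⌊X⌋₊ := ⟨_, rfl⟩
  have hH1 : (H : ℝ) ≤ X := by
    rw [hH]
    exact Nat.floor_le (by linarith)
  have hH2 : X < (H : ℝ) + 1 := by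
    rw [hH]
    exact Nat.lt_floor_add_one X
  have hH3 : (2 : ℝ) < H := by linarith
  have hH2' : 2 ≤ H := by exact_mod_cast hH3.le
  have h8 := hx H (by linarith)
  apply Pool.Agent.Q117.CB.omega_le (H := H) (t := (t : ℝ)) (M := 1 + 1 / (2 * t)) hH2' ht0 hm
  · rw [Real.rpow_add (by linarith), Real.rpow_one]
    nlinarith
  · intro q hq hd
    by_contra hcon
    rw [not_le] at hcon
    refine h q hq ?_ hd
    refine hcon.le.trans ?_
    exact Real.rpow_le_rpow (by linarith) hH1 (by positivity)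
  · have : (1 + 1 / (2 * (t : ℝ))) * t = t + 1 / 2 := by
      field_simp
    rw [this]
    linarith

/-- pairs with an even difference are admissible -/
lemma adm_pair {d : ℕ} (hd : Even d) : Adm {0, d} := by
  intro p hp
  by_cases h : p ∣ d
  · refine ⟨1, ?_⟩
    intro h' hh
    rw [mem_insert, mem_singleton] at hh
    intro hdiv
    have h1 : p ∣ h' := by
      rcases hh with hh | hh
      · rw [hh]
        exact dvd_zero p
      · rw [hh]
        exact h
    exact hp.one_lt.ne' (Nat.dvd_one.1 ((Nat.dvd_add_left h1).1 hdiv))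
  · -- `p` is odd: one of `1, 2` works
    have hp2 : p ≠ 2 := by
      intro h2
      apply h
      rw [h2]
      exact hd.two_dvd
    have hp3 : 3 ≤ p := by
      have := hp.two_le
      omega
    by_cases h1 : p ∣ 1 + d
    · refine ⟨2, ?_⟩
      intro h' hh
      rw [mem_insert, mem_singleton] at hh
      rcases hh with hh | hh
      · rw [hh]
        intro hdiv
        have := Nat.le_of_dvd (by norm_num) hdiv
        omega
      · rw [hh]
        intro hdiv
        have h3 : p ∣ (2 + d) - (1 + d) := Nat.dvd_sub hdiv h1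
        have h4 : (2 + d) - (1 + d) = 1 := by omega
        rw [h4] at h3
        exact hp.one_lt.ne' (Nat.dvd_one.1 h3)
    · refine ⟨1, ?_⟩
      intro h' hh
      rw [mem_insert, mem_singleton] at hh
      rcases hh with hh | hh
      · rw [hh]
        intro hdiv
        have := Nat.le_of_dvd (by norm_num) hdiv
        omega
      · rw [hh]
        exact h1

/-- the growth of the window -/
lemma window_le (c : ℝ) (hc : 0 < c) : ∃ X0 : ℝ, ∀ X : ℝ, X0 ≤ X → c * Rk X ≤ X := by
  have hlog := Real.tendsto_log_atTop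
  have hA : Tendsto (fun X : ℝ => Real.log (Real.log X)) atTop atTop := hlog.comp hlog
  have hB : Tendsto (fun X : ℝ => Real.log (Real.log (Real.log X))) atTop atTop := hlog.comp hA
  have h1 := (Real.isLittleO_pow_log_id_atTop (n := 3)).bound (show (0 : ℝ) < 1 / c by positivity)
  have hRX : ∀ᶠ X : ℝ in atTop, c * Rk X ≤ X := by
    filter_upwards [h1, eventually_ge_atTop (1 : ℝ), hB.eventually_ge_atTop 1, hA.eventually_ge_atTop 1, hlog.eventually_ge_atTop 1] with X h2 h3 h4 h5 h6
    rw [Real.norm_of_nonneg (pow_nonneg (Real.log_nonneg h3) 3), id, Real.norm_of_nonneg (by linarith)] at h2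
    obtain ⟨T, hT⟩ : ∃ T, T = Real.log X := ⟨_, rfl⟩
    obtain ⟨A, hAd⟩ : ∃ A, A = Real.log T := ⟨_, rfl⟩
    obtain ⟨B, hBd⟩ : ∃ B, B = Real.log A := ⟨_, rfl⟩
    obtain ⟨D, hDd⟩ : ∃ D, D = Real.log B := ⟨_, rfl⟩
    have hR : Rk X = T * A * D / B ^ 2 := by
      unfold Rk
      rw [← hT, ← hAd, ← hBd, ← hDd]
    rw [← hT, ← hAd, ← hBd] at h4
    rw [← hT, ← hAd] at h5
    rw [← hT] at h6 h2
    have hlt : ∀ x : ℝ, 0 < x → Real.log x ≤ x := fun x hx => by
      have := Real.log_le_sub_one_of_pos hx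
      linarith
    have hAT : A ≤ T := by rw [hAd]; exact hlt T (by linarith)
    have hBA : B ≤ A := by rw [hBd]; exact hlt A (by linarith)
    have hDB : D ≤ B := by rw [hDd]; exact hlt B (by linarith)
    have hD0 : 0 ≤ D := by rw [hDd]; exact Real.log_nonneg h4
    have h7 : Rk X ≤ T ^ 3 := by
      rw [hR, div_le_iff₀ (by positivity)]
      have h8 : T * A * D ≤ T * T * T := by
        have : D ≤ T := by linarith
        gcongr
      have h9 : (1 : ℝ) ≤ B ^ 2 := one_le_pow₀ h4
      calc T * A * D ≤ T * T * T := h8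
        _ = T ^ 3 * 1 := by ring
        _ ≤ T ^ 3 * B ^ 2 := by gcongr
    calc c * Rk X ≤ c * (1 / c * X) := by
          gcongr
          exact h7.trans h2
      _ = X := by field_simp
  exact eventually_atTop.1 hRX

end Pool.Agent.Q117.GP
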