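import Pool.Agent.Q117.GP.SieveD
import Pool.Agent.Q117.GP.Cover
import Pool.Agent.Q84.MB.D4

/-!
# Patterns of diameter up to Rankin's function among a prime and almost primes, all other numbers composite

`growing`: for every admissible set `H` of `k` integers `≤ c R(X)` and every `a ∈ H` there are at least `X ^ (99/100)` integers `n` with
`n + a ∈ (X, 3X]` prime, all `n + h`, `h ∈ H`, without prime factors `≤ X ^ (1/t)`, and all other `n + s`, `s ≤ c R(X)`, divisible by a prime
`≤ log X`.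
-/

set_option autoImplicit false
set_option maxHeartbeats 4000000

namespace Pool.Agent.Q117.GP

open Finset Filter
open Pool.Agent.H378R2
open Pool.Agent.H312R2.RG (BVat)

/-- Bombieri-Vinogradov in the form used here -/
theorem bvat' (A Z : ℕ) (hZ : 2 ≤ Z) : ∃ X0 : ℝ, ∀ X : ℝ, X0 ≤ X →
    ∃ (ps : ℕ) (S : Finset ℕ), GoodP Z ps ∧ GoodS X S ∧ BVat A X (WW X S ps) ps := by
  obtain ⟨X0, h⟩ := Pool.Agent.Q84.MB.bvG 1 le_rfl A Z hZ (fun p hp h => absurd (Nat.dvd_one.1 h) hp.one_lt.ne')
  refine ⟨X0, fun X hX => ?_⟩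
  obtain ⟨ps, S, h1, h2, h3, h4⟩ := h X hX
  refine ⟨ps, S, h1, h2, fun b hb => ?_⟩
  have h5 := h4 b (fun q hq => by
    rw [LSBV.mem_QQ] at hq
    rw [one_mul]
    exact hb q hq.1.1)
  simp only [one_mul] at h5
  unfold LSBV.QQ at h5
  exact h5

/-- the forbidden classes -/
def OmH (H : Finset ℕ) (a p : ℕ) : Finset ℕ := ((H.erase a).image (fun h => (a + h * (p - 1)) % p)).filter (fun c => c ≠ 0)

lemma OmH_sys {H : Finset ℕ} {a k : ℕ} (hH : H.card = k) : OmS k (OmH H a) where
  card := by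
    intro p _
    unfold OmH
    refine (card_filter_le _ _).trans (card_image_le.trans ?_)
    have := card_le_card (erase_subset a H)
    omega
  zero := by
    intro p _ h
    unfold OmH at h
    rw [mem_filter] at h
    exact h.2 rfl
  lt := by
    intro p hp c hc
    unfold OmH at hc
    rw [mem_filter, mem_image] at hc
    obtain ⟨⟨h, _, rfl⟩, _⟩ := hc
    exact Nat.mod_lt _ hp.pos

open Classical in
/-- the integers `n` with `n + a ∈ (X, 3X]` prime, all `n + h`, `h ∈ H`, without prime factors `≤ X ^ (1/t)`, and all other `n + s`,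
`s ≤ D`, divisible by a prime `≤ log X` -/
noncomputable def Pts (t : ℕ) (X D : ℝ) (H : Finset ℕ) (a : ℕ) : Finset ℕ :=
  (range (⌊3 * X⌋₊ + 1)).filter (fun n : ℕ => X < ((n + a : ℕ) : ℝ) ∧ ((n + a : ℕ) : ℝ) ≤ 3 * X ∧ (n + a).Prime ∧
    (∀ h ∈ H, ∀ p : ℕ, p.Prime → (p : ℝ) ≤ X ^ (1 / (t : ℝ)) → ¬ p ∣ n + h) ∧
    ∀ s : ℕ, (s : ℝ) ≤ D → s ∉ H → ∃ p : ℕ, p.Prime ∧ (p : ℝ) ≤ Real.log X ∧ p ∣ n + s)

/-- **Growing patterns.** -/
theorem growing (k : ℕ) (hk : 1 ≤ k) : ∃ t : ℕ, 1 ≤ t ∧ ∃ c : ℝ, 0 < c ∧ ∃ X0 : ℝ, ∀ X : ℝ, X0 ≤ X → ∀ H : Finset ℕ, H.card = k →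
    (∀ h ∈ H, (h : ℝ) ≤ c * Rk X) → Adm H → ∀ a ∈ H, X ^ (99 / 100 : ℝ) ≤ ((Pts t X (c * Rk X) H a).card : ℝ) := by
  classical
  obtain ⟨t, ht, A', Z, hZ, X1, hsieve⟩ := sieveP k
  obtain ⟨c, hc, X2, hcov⟩ := cover k hk
  obtain ⟨X3, hbv⟩ := bvat' A' Z hZ
  have ht0 : (0 : ℝ) < t := by exact_mod_cast ht
  -- `c R(X) ≤ X`
  have hRX : ∀ᶠ X : ℝ in atTop, c * Rk X ≤ X := by
    have hlog := Real.tendsto_log_atTop
    have hA : Tendsto (fun X : ℝ => Real.log (Real.log X)) atTop atTop := hlog.comp hlog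
    have hB : Tendsto (fun X : ℝ => Real.log (Real.log (Real.log X))) atTop atTop := hlog.comp hA
    have h1 := (Real.isLittleO_pow_log_id_atTop (n := 3)).bound (show (0 : ℝ) < 1 / c by positivity)
    filter_upwards [h1, eventually_ge_atTop (1 : ℝ), hB.eventually_ge_atTop 1, hA.eventually_ge_atTop 1, hlog.eventually_ge_atTop 1] with X h2 h3 h4 h5 h6
    rw [Real.norm_of_nonneg (pow_nonneg (Real.log_nonneg h3) 3), id, Real.norm_of_nonneg (by linarith)] at h2
    obtain ⟨T, hT⟩ : ∃ T, T = Real.log X := ⟨_, rfl⟩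
    obtain ⟨A, hAd⟩ : ∃ A, A = Real.log T := ⟨_, rfl⟩
    obtain ⟨B, hBd⟩ : ∃ B, B = Real.log A := ⟨_, rfl⟩
    obtain ⟨D, hDd⟩ : ∃ D, D = Real.log B := ⟨_, rfl⟩
    have hR : Rk X = T * A * D / B ^ 2 := by
      unfold Rk
      rw [← hT, ← hAd, ← hBd, ← hDd]
    rw [← hT, ← hAd, ← hBd] at h4
    rw [← hT, ← hAd] at h5
    rw [← hT] at h6 h2
    have hlt : ∀ x : ℝ, 0 < x → Real.log x ≤ x := fun x hx => by
      have := Real.log_le_sub_one_of_pos hx
      linarith
    have hAT : A ≤ T := by rw [hAd]; exact hlt T (by linarith)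
    have hBA : B ≤ A := by rw [hBd]; exact hlt A (by linarith)
    have hDB : D ≤ B := by rw [hDd]; exact hlt B (by linarith)
    have hD0 : 0 ≤ D := by rw [hDd]; exact Real.log_nonneg h4
    have h7 : Rk X ≤ T ^ 3 := by
      rw [hR, div_le_iff₀ (by positivity)]
      have h8 : T * A * D ≤ T * T * T := by
        have : D ≤ T := by linarith
        gcongr
      have h9 : (1 : ℝ) ≤ B ^ 2 := one_le_pow₀ h4
      calc T * A * D ≤ T * T * T := h8
        _ = T ^ 3 * 1 := by ring
        _ ≤ T ^ 3 * B ^ 2 := by gcongr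
    calc c * Rk X ≤ c * (1 / c * X) := by
          gcongr
          exact h7.trans h2
      _ = X := by field_simp
  obtain ⟨X4, hX4⟩ := eventually_atTop.1 hRX
  refine ⟨t, ht, c, hc, max (max X1 X2) (max (max X3 X4) 3), ?_⟩
  intro X hX H hHc hHle hadm a ha
  have g1 : X1 ≤ X := ((le_max_left _ _).trans (le_max_left _ _)).trans hX
  have g2 : X2 ≤ X := ((le_max_right _ _).trans (le_max_left _ _)).trans hX
  have g3 : X3 ≤ X := (((le_max_left _ _).trans (le_max_left _ _)).trans (le_max_right _ _)).trans hX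
  have g4 : X4 ≤ X := (((le_max_right _ _).trans (le_max_left _ _)).trans (le_max_right _ _)).trans hX
  have g5 : 3 ≤ X := ((le_max_right _ _).trans (le_max_right _ _)).trans hX
  have hcR := hX4 X g4
  obtain ⟨ps, S, hps, hS, hBV⟩ := hbv X g3
  have hps2 : GoodP 2 ps := by
    rcases hps with h | h
    · exact Or.inl h
    · exact Or.inr ⟨h.1, by omega⟩
  obtain ⟨a1, ha1⟩ := hcov X g2 ps S hps2 hS H hHc hHle hadm
  obtain ⟨W, hW⟩ : ∃ W, W = WW X S ps := ⟨_, rfl⟩
  rw [← hW] at ha1
  have hcop : ∀ h ∈ H, (a1 + h).Coprime W := fun h hh => (ha1 h (hHle h hh)).2 hh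
  have h1 := hsieve X g1 ps S hps hS hBV (a1 + a) (by rw [← hW]; exact hcop a ha) (OmH H a) (OmH_sys hHc)
  rw [← hW] at h1
  refine h1.trans ?_
  rw [Nat.cast_le]
  have haX : (a : ℝ) ≤ X := (hHle a ha).trans hcR
  apply card_le_card_of_injOn (fun m => m - a)
  · intro m hm
    rw [mem_coe] at hm ⊢
    unfold GPr at hm
    rw [mem_filter, mem_Icc] at hm
    obtain ⟨⟨_, hm3⟩, hmX, hmp, hmod, hmOm⟩ := hm
    have ham : a ≤ m := by
      have : (a : ℝ) < m := lt_of_le_of_lt haX hmX
      exact_mod_cast this.le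
    have hma : m - a + a = m := Nat.sub_add_cancel ham
    have hnm : m - a ≡ a1 [MOD W] := by
      apply Nat.ModEq.add_right_cancel' a
      rw [hma]
      exact hmod
    show m - a ∈ Pts t X (c * Rk X) H a
    unfold Pts
    rw [mem_filter, mem_range, hma]
    refine ⟨by omega, hmX, (Nat.cast_le.2 hm3).trans (Nat.floor_le (by linarith)), hmp, ?_, ?_⟩
    · intro h hh p hp hpX hd
      have hpm : ¬ p ∣ m := by
        intro hd2
        have h2 := (Nat.prime_dvd_prime_iff_eq hp hmp).1 hd2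
        have h3 : X ^ (1 / (t : ℝ)) ≤ X := by
          calc X ^ (1 / (t : ℝ)) ≤ X ^ (1 : ℝ) := by
                apply Real.rpow_le_rpow_of_exponent_le (by linarith)
                rw [div_le_one ht0]
                exact_mod_cast ht
            _ = X := Real.rpow_one X
        rw [h2] at hpX
        linarith
      by_cases hpW : p ∣ W
      · have h2 : p ∣ a1 + h := by
          have h3 : m - a + h ≡ a1 + h [MOD p] := (hnm.of_dvd hpW).add_right h
          exact (h3.dvd_iff dvd_rfl).1 hd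
        have h4 := hcop h hh
        have h5 := Nat.dvd_gcd h2 hpW
        rw [Nat.Coprime] at h4
        rw [h4] at h5
        exact hp.one_lt.ne' (Nat.dvd_one.1 h5)
      · by_cases hha : h = a
        · rw [hha, hma] at hd
          exact hpm hd
        · apply hmOm p hp hpW hpX
          unfold OmH
          rw [mem_filter, mem_image]
          refine ⟨⟨h, mem_erase.2 ⟨hha, hh⟩, ?_⟩, ?_⟩
          · have h2 : a + h * (p - 1) + h ≡ m + h [MOD p] := by
              have h3 : a + h * (p - 1) + h = a + h * p := by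
                have h4 : h * (p - 1) + h = h * p := by
                  obtain ⟨q, rfl⟩ : ∃ q, p = q + 1 := ⟨p - 1, by have := hp.pos; omega⟩
                  rw [Nat.add_sub_cancel]
                  ring
                omega
              rw [h3]
              have h4 : a + h * p ≡ a + 0 [MOD p] := Nat.ModEq.add_left a ((Nat.modEq_zero_iff_dvd).2 (dvd_mul_left p h))
              have h5 : m + h ≡ a + 0 [MOD p] := by
                have h6 : m + h = a + (m - a + h) := by omega
                rw [h6]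
                exact Nat.ModEq.add_left a ((Nat.modEq_zero_iff_dvd).2 hd)
              exact h4.trans h5.symm
            exact Nat.ModEq.add_right_cancel' h h2
          · intro h0
            exact hpm (Nat.dvd_of_mod_eq_zero h0)
    · intro s hs hsH
      have h2 : ¬ (a1 + s).Coprime W := fun h => hsH ((ha1 s hs).1 h)
      obtain ⟨p, hp, hp1, hp2⟩ := Nat.Prime.not_coprime_iff_dvd.1 h2
      refine ⟨p, hp, ?_, ?_⟩
      · rw [hW] at hp2
        unfold WW at hp2
        rw [hp.prime.dvd_finsetProd_iff] at hp2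
        obtain ⟨q, hq, hd⟩ := hp2
        unfold PW at hq
        rw [mem_filter, mem_Icc] at hq
        have h3 := (Nat.prime_dvd_prime_iff_eq hp hq.2.1).1 hd
        rw [h3]
        have h4 : (q : ℝ) ≤ yy X := by exact_mod_cast hq.1.2
        have h5 : (yy X : ℝ) ≤ Real.log X / 1000 := Nat.floor_le (by
          have := Real.log_nonneg (show (1 : ℝ) ≤ X by linarith)
          positivity)
        have h6 := Real.log_nonneg (show (1 : ℝ) ≤ X by linarith)
        linarith
      · have h3 : m - a + s ≡ a1 + s [MOD p] := (hnm.of_dvd hp2).add_right s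
        exact (h3.dvd_iff dvd_rfl).2 hp1
  · intro m hm m' hm' he
    rw [mem_coe] at hm hm'
    unfold GPr at hm hm'
    rw [mem_filter] at hm hm'
    have h2 : a ≤ m := by
      have : (a : ℝ) < m := lt_of_le_of_lt haX hm.2.1
      exact_mod_cast this.le
    have h3 : a ≤ m' := by
      have : (a : ℝ) < m' := lt_of_le_of_lt haX hm'.2.1
      exact_mod_cast this.le
    simp only at he
    omega

end Pool.Agent.Q117.GP
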