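import Pool.Agent.H378R2.M7s
import Pool.Agent.H378R2.M7r
import Pool.Agent.H378R2.M7j
import Pool.Agent.H378R2.LSBV4
import Pool.Agent.H312R2.RG.Defs
import Pool.Agent.TH423.SH.FLIP
import Pool.Agent.TH423.SH.FLLP

/-!
# Sums over classes modulo `W q`
-/

set_option autoImplicit false
set_option maxHeartbeats 4000000

namespace Pool.Agent.Q117.GP

open Finset Filter
open Pool.Agent.H378R2
open Pool.Agent.TH423.SH Pool.Agent.TH423.SH.FLIP
open Pool.Agent.H312R2.RG (BVat)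

/-- the weight -/
noncomputable def wt (X : ℝ) (n : ℕ) : ℝ := Pool.Agent.H378R2.Phi (n / X) * ArithmeticFunction.vonMangoldt n

lemma wt_nonneg (X : ℝ) (n : ℕ) : 0 ≤ wt X n :=
  mul_nonneg (le_max_left _ _) ArithmeticFunction.vonMangoldt_nonneg

lemma two_pow_le (n : ℕ) (hn : n ≠ 0) : 2 ^ n.primeFactors.card ≤ n.divisors.card := by
  classical
  rw [← card_powerset]
  apply card_le_card_of_injOn (fun T => ∏ p ∈ T, p)
  · intro T hT
    rw [mem_coe, mem_powerset] at hT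
    rw [mem_coe, Nat.mem_divisors]
    refine ⟨?_, hn⟩
    exact (prod_dvd_prod_of_subset _ _ _ hT).trans (Nat.prod_primeFactors_dvd n)
  · intro T hT T' hT' h
    rw [mem_coe, mem_powerset] at hT hT'
    have h1 : ∀ U ⊆ n.primeFactors, (∏ p ∈ U, p).primeFactors = U := by
      intro U hU
      apply Nat.primeFactors_prod
      intro p hp
      exact Nat.prime_of_mem_primeFactors (hU hp)
    rw [← h1 T hT, ← h1 T' hT']
    simp only at h
    rw [h]

lemma totient_prod (T : Finset ℕ) (hT : ∀ p ∈ T, p.Prime) : ((∏ p ∈ T, p : ℕ).totient : ℝ) = ∏ p ∈ T, ((p : ℝ) - 1) := by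
  classical
  induction T using Finset.induction_on with
  | empty => simp
  | insert p T hp ih =>
    rw [prod_insert hp, prod_insert hp]
    have hpp := hT p (mem_insert_self _ _)
    have hco : p.Coprime (∏ q ∈ T, q) := by
      rw [Nat.coprime_prod_right_iff]
      intro q hq
      have hqp := hT q (mem_insert_of_mem hq)
      rw [Nat.coprime_primes hpp hqp]
      intro h
      exact hp (h ▸ hq)
    rw [Nat.totient_mul hco, Nat.totient_prime hpp]
    push_cast [hpp.one_le]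
    rw [ih (fun q hq => hT q (mem_insert_of_mem hq))]

lemma coprime_prod' {W : ℕ} {T : Finset ℕ} (hT : ∀ p ∈ T, p.Prime ∧ ¬ p ∣ W) : W.Coprime (∏ p ∈ T, p) := by
  rw [Nat.coprime_prod_right_iff]
  intro p hp
  rw [Nat.coprime_comm, Nat.Prime.coprime_iff_not_dvd (hT p hp).1]
  exact (hT p hp).2

/-- the sums over classes -/
lemma class_sum (X : ℝ) (W b0 : ℕ) (hb0 : b0.Coprime W) (T : Finset ℕ) (hT : ∀ p ∈ T, p.Prime ∧ ¬ p ∣ W)
    (c : ℕ → ℕ) (hc : ∀ p ∈ T, c p < p ∧ c p ≠ 0) : ∃ r : ℕ, r.Coprime (W * ∏ p ∈ T, p) ∧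
    ∑ n ∈ ((Icc 1 ⌊3 * X⌋₊).filter (fun n => n ≡ b0 [MOD W])).filter (fun n => ∀ p ∈ T, n % p = c p), wt X n =
      EPhi X (W * ∏ p ∈ T, p) r + LPhi X / W.totient * ∏ p ∈ T, (1 / ((p : ℝ) - 1)) := by
  classical
  obtain ⟨v, hv⟩ := crt_set W b0 c T hT (fun p hp => (hc p hp).1)
  refine ⟨v, ?_, ?_⟩
  · have h1 := (hv v).2 rfl
    apply Nat.Coprime.mul_right
    · have h2 : v ≡ b0 [MOD W] := h1.1
      unfold Nat.Coprime at hb0 ⊢
      rw [h2.gcd_eq]
      exact hb0
    · rw [Nat.coprime_prod_right_iff]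
      intro p hp
      rw [Nat.coprime_comm, Nat.Prime.coprime_iff_not_dvd (hT p hp).1]
      intro hd
      have h3 := h1.2 p hp
      rw [Nat.mod_eq_zero_of_dvd hd] at h3
      exact (hc p hp).2 h3.symm
  · rw [filter_filter]
    have e1 : (Icc 1 ⌊3 * X⌋₊).filter (fun n => n ≡ b0 [MOD W] ∧ ∀ p ∈ T, n % p = c p) =
        (Icc 1 ⌊3 * X⌋₊).filter (fun n => n ≡ v [MOD W * ∏ p ∈ T, p]) :=
      filter_congr fun n _ => hv n
    rw [e1]
    unfold EPhi LPhi wt
    rw [Nat.totient_mul (coprime_prod' hT)]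
    push_cast
    rw [totient_prod T (fun p hp => (hT p hp).1)]
    have e2 : ∏ p ∈ T, (1 / ((p : ℝ) - 1)) = 1 / ∏ p ∈ T, ((p : ℝ) - 1) := by
      rw [prod_div_distrib, prod_const_one]
    rw [e2]
    ring

end Pool.Agent.Q117.GP
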