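import Pool.Agent.Q117.GP.SieveA

/-!
# The fundamental lemma for the primes of a class modulo the big modulus
-/

set_option autoImplicit false
set_option maxHeartbeats 4000000

namespace Pool.Agent.Q117.GP

open Finset Filter
open Pool.Agent.H378R2
open Pool.Agent.TH423.SH Pool.Agent.TH423.SH.FLIP
open Pool.Agent.H312R2.RG (BVat)

/-- the primes of the sieve -/
def SPr (z0 J W ps : ℕ) : Finset ℕ := (Ioc z0 (2 ^ 2 ^ J)).filter (fun p => p.Prime ∧ ¬ p ∣ W ∧ p ≠ ps)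

/-- the integers of the class -/
noncomputable def Cl (X : ℝ) (W b0 : ℕ) : Finset ℕ := (Icc 1 ⌊3 * X⌋₊).filter (fun n => n ≡ b0 [MOD W])

/-- the sets of classes -/
structure OmS (κ : ℕ) (Om : ℕ → Finset ℕ) : Prop where
  card : ∀ p : ℕ, p.Prime → (Om p).card ≤ κ
  zero : ∀ p : ℕ, p.Prime → 0 ∉ Om p
  lt : ∀ p : ℕ, p.Prime → ∀ c ∈ Om p, c < p

lemma mem_SPr {z0 J W ps p : ℕ} : p ∈ SPr z0 J W ps ↔ (z0 < p ∧ p ≤ 2 ^ 2 ^ J) ∧ p.Prime ∧ ¬ p ∣ W ∧ p ≠ ps := by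
  unfold SPr
  rw [mem_filter, mem_Ioc]

lemma prod_inj {S T : Finset ℕ} (hS : ∀ p ∈ S, p.Prime) (hT : ∀ p ∈ T, p.Prime) (h : ∏ p ∈ S, p = ∏ p ∈ T, p) : S = T := by
  rw [← Nat.primeFactors_prod hS, h, Nat.primeFactors_prod hT]

/-- the error sum -/
lemma err_sum (κ A' : ℕ) (hκ : κ ≤ A') (X : ℝ) (W ps Y : ℕ) (hps : ps = 1 ∨ ps.Prime)
    (hY : (Y : ℝ) ≤ X ^ (1 / 100 : ℝ)) (hBV : BVat A' X W ps) (P : Finset ℕ) (hP : ∀ p ∈ P, p.Prime ∧ ¬ p ∣ W ∧ p ≠ ps)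
    (Bc : ℕ → ℕ) (hBc : ∀ q, 1 ≤ q → (Bc q).Coprime (W * q)) :
    ∑ T ∈ P.powerset.filter (fun T : Finset ℕ => ∏ p ∈ T, p ≤ Y),
      (κ : ℝ) ^ T.card * |EPhi X (W * ∏ p ∈ T, p) (Bc (∏ p ∈ T, p))| ≤ X / ((Nat.totient W : ℝ) * (Real.log X) ^ A') := by
  classical
  refine le_trans ?_ (hBV Bc hBc)
  obtain ⟨F, hF⟩ : ∃ F, F = P.powerset.filter (fun T : Finset ℕ => ∏ p ∈ T, p ≤ Y) := ⟨_, rfl⟩
  rw [← hF]
  have hFP : ∀ T ∈ F, T ⊆ P ∧ ∏ p ∈ T, p ≤ Y := by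
    intro T hT
    rw [hF, mem_filter, mem_powerset] at hT
    exact hT
  have hTp : ∀ T ∈ F, ∀ p ∈ T, p.Prime := fun T hT p hp => (hP p ((hFP T hT).1 hp)).1
  calc ∑ T ∈ F, (κ : ℝ) ^ T.card * |EPhi X (W * ∏ p ∈ T, p) (Bc (∏ p ∈ T, p))|
      ≤ ∑ T ∈ F, ((((∏ p ∈ T, p : ℕ).divisors.card : ℝ)) ^ A' * |EPhi X (W * ∏ p ∈ T, p) (Bc (∏ p ∈ T, p))|) := by
        apply sum_le_sum
        intro T hT
        apply mul_le_mul_of_nonneg_right _ (abs_nonneg _)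
        have h0 : ∏ p ∈ T, p ≠ 0 := (prod_pos fun p hp => (hTp T hT p hp).pos).ne'
        have h1 := two_pow_le _ h0
        rw [Nat.primeFactors_prod (hTp T hT)] at h1
        have h2 : (κ : ℝ) ≤ 2 ^ A' := by
          have h3 : κ ≤ 2 ^ A' := hκ.trans Nat.lt_two_pow_self.le
          exact_mod_cast h3
        calc (κ : ℝ) ^ T.card ≤ (2 ^ A') ^ T.card := by gcongr
          _ = (2 ^ T.card) ^ A' := by rw [← pow_mul, ← pow_mul, mul_comm]
          _ ≤ _ := by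
            gcongr
            exact_mod_cast h1
    _ = ∑ q ∈ F.image (fun T => ∏ p ∈ T, p), ((q.divisors.card : ℝ) ^ A' * |EPhi X (W * q) (Bc q)|) := by
        rw [sum_image]
        intro T hT T' hT' h
        exact prod_inj (hTp T hT) (hTp T' hT') h
    _ ≤ _ := by
        apply sum_le_sum_of_subset_of_nonneg
        · intro q hq
          rw [mem_image] at hq
          obtain ⟨T, hT, rfl⟩ := hq
          rw [mem_filter, mem_Icc]
          refine ⟨⟨prod_pos fun p hp => (hTp T hT p hp).pos, ?_⟩, ?_, ?_⟩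
          · apply Nat.le_floor
            refine le_trans ?_ hY
            exact_mod_cast (hFP T hT).2
          · refine Finset.squarefree_prod_of_pairwise_isCoprime ?_ ?_
            · intro p hp q hq hpq
              exact Nat.coprime_iff_isRelPrime.1 ((Nat.coprime_primes (hTp T hT p hp) (hTp T hT q hq)).2 hpq)
            · intro p hp
              exact (hTp T hT p hp).prime.squarefree
          · rw [Nat.coprime_comm]
            apply coprime_prod'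
            intro p hp
            refine ⟨hTp T hT p hp, ?_⟩
            intro hd
            have h2 := hP p ((hFP T hT).1 hp)
            rcases (h2.1.dvd_mul).1 hd with h3 | h3
            · exact h2.2.1 h3
            · rcases hps with h4 | h4
              · rw [h4] at h3
                exact h2.1.one_lt.ne' (Nat.dvd_one.1 h3)
              · exact h2.2.2 ((Nat.prime_dvd_prime_iff_eq h2.1 h4).1 h3)
        · intro q _ _
          positivity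

/-- the main sum -/
theorem main_sum : ∃ C0 : ℕ, 1 ≤ C0 ∧ ∀ κ b J z0 A' : ℕ, C0 * (κ + 1) ≤ b → C0 * (κ + 1) ≤ z0 → κ ≤ A' →
    ∀ X : ℝ, 1 ≤ X → (((2 ^ 2 ^ J) ^ (C0 * b) : ℕ) : ℝ) ≤ X ^ (1 / 100 : ℝ) → 0 ≤ LPhi X →
    ∀ W ps b0 : ℕ, 0 < W → (ps = 1 ∨ ps.Prime) → b0.Coprime W → BVat A' X W ps → ∀ Om : ℕ → Finset ℕ, OmS κ Om →
    |∑ n ∈ (Cl X W b0).filter (fun n => ∀ p ∈ SPr z0 J W ps, n % p ∉ Om p), wt X n -
      LPhi X / W.totient * ∏ p ∈ SPr z0 J W ps, (1 - ((Om p).card : ℝ) * (1 / ((p : ℝ) - 1)))| ≤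
      (1 / 2 : ℝ) ^ b * (LPhi X / W.totient * ∏ p ∈ SPr z0 J W ps, (1 - ((Om p).card : ℝ) * (1 / ((p : ℝ) - 1)))) +
      ((J : ℝ) + 2) * (X / ((Nat.totient W : ℝ) * (Real.log X) ^ A')) := by
  classical
  obtain ⟨C0, hC0, hF⟩ := fll
  refine ⟨C0, hC0, ?_⟩
  intro κ b J z0 A' hb hz hA' X hX hY hL W ps b0 hW hps hb0 hBV Om hOm
  obtain ⟨Bc, hBc1, hBc2⟩ := Bc_exists X W hW
  have h1 := hF κ b J z0 (SPr z0 J W ps) (fun p => 1 / ((p : ℝ) - 1)) Om hb hz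
    (fun p hp => ⟨(mem_SPr.1 hp).2.1, (mem_SPr.1 hp).1.1, (mem_SPr.1 hp).1.2⟩)
    (fun p hp => hOm.card p (mem_SPr.1 hp).2.1)
    (by
      intro p hp
      have hp2 : (2 : ℝ) ≤ p := by exact_mod_cast (mem_SPr.1 hp).2.1.two_le
      exact ⟨one_div_nonneg.2 (by linarith), le_rfl⟩)
    (Cl X W b0) (wt X) (LPhi X / W.totient) (fun m => |EPhi X (W * m) (Bc m)|)
    (fun n _ => wt_nonneg X n) (by positivity) (fun m => abs_nonneg _)
    (by
      intro T hT _ c hc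
      have hTp : ∀ p ∈ T, p.Prime ∧ ¬ p ∣ W := fun p hp => ⟨(mem_SPr.1 (hT hp)).2.1, (mem_SPr.1 (hT hp)).2.2.1⟩
      obtain ⟨r, hr1, hr2⟩ := class_sum X W b0 hb0 T hTp c (fun p hp =>
        ⟨hOm.lt p (hTp p hp).1 _ (hc p hp), fun h => hOm.zero p (hTp p hp).1 (h ▸ hc p hp)⟩)
      unfold Cl
      rw [hr2, add_sub_cancel_right]
      exact hBc2 _ (prod_pos fun p hp => (hTp p hp).1.pos) r hr1)
  refine h1.trans ?_
  gcongr
  have h2 := err_sum κ A' hA' X W ps ((2 ^ 2 ^ J) ^ (C0 * b)) hps hY hBV (SPr z0 J W ps)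
    (fun p hp => (mem_SPr.1 hp).2) Bc hBc1
  exact h2

end Pool.Agent.Q117.GP
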