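import Pool.Agent.Q117.GP.SieveB
import Pool.Agent.Q117.GP.IntClass
import Pool.Agent.H318R2.Cr.Prod
import Pool.Agent.Q253.Thin.Int
import Pool.Agent.Q253.Thin.Upper

/-!
# Products over the sieving primes
-/

set_option autoImplicit false
set_option maxHeartbeats 4000000

namespace Pool.Agent.Q117.GP

open Finset Filter
open Pool.Agent.H378R2
open Pool.Agent.H318R2.Cr (V Pz mem_Pz V_pos cz_bounds)
open Pool.Agent.Q253.Thin (SysZ VZ_low)
open Pool.Agent.Y843.HS (Pr VV Pr_mem Pr_prime)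

lemma factor_split {p : ℕ} (m : ℕ) (hp : 2 ≤ p) :
    (1 - ((m : ℝ) + 1) / p) = (1 - (m : ℝ) * (1 / ((p : ℝ) - 1))) * (1 - 1 / (p : ℝ)) := by
  have h2 : (2 : ℝ) ≤ p := by exact_mod_cast hp
  have h3 : (p : ℝ) - 1 ≠ 0 := by linarith
  have h4 : (p : ℝ) ≠ 0 := by linarith
  field_simp
  ring

lemma V2_low (κ : ℕ) : ∃ c : ℝ, 0 < c ∧ ∀ (P : Finset ℕ) (z R : ℕ) (Om : ℕ → Finset ℕ),
    (∀ p ∈ P, p.Prime ∧ z < p ∧ p ≤ R) → κ + 1 ≤ z → OmS κ Om → 2 ≤ R →
    c / (Real.log R) ^ (κ + 1) ≤ ∏ p ∈ P, (1 - (((Om p).card : ℝ) + 1) / p) := by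
  classical
  obtain ⟨c, hc, hV⟩ := VZ_low (κ + 1) (by omega)
  refine ⟨c, hc, ?_⟩
  intro P z R Om hP hz hOm hR
  obtain ⟨Zs, hZs⟩ : ∃ Zs : ℕ → Finset ℕ, Zs = fun p => if p ∈ P then insert 0 (Om p) else ∅ := ⟨_, rfl⟩
  have hcardP : ∀ p ∈ P, (insert 0 (Om p)).card = (Om p).card + 1 := fun p hp =>
    card_insert_of_notMem (hOm.zero p (hP p hp).1)
  have hsys : SysZ (κ + 1) Zs := by
    constructor
    · intro p _
      rw [hZs]
      simp only
      split_ifs with h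
      · rw [hcardP p h]
        have := hOm.card p (hP p h).1
        omega
      · simp
    · intro p hp
      rw [hZs]
      simp only
      split_ifs with h
      · rw [hcardP p h]
        have := hOm.card p (hP p h).1
        have := (hP p h).2.1
        omega
      · rw [card_empty]
        exact hp.pos
    · intro p hp c hc
      rw [hZs] at hc
      simp only at hc
      split_ifs at hc with h
      · rw [mem_insert] at hc
        rcases hc with hc | hc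
        · rw [hc]
          exact hp.pos
        · exact hOm.lt p hp c hc
      · exact absurd hc (notMem_empty _)
  refine (hV R hR Zs hsys).trans (le_of_eq ?_)
  unfold VV
  have h1 : P ⊆ Pr 0 R := by
    intro p hp
    rw [Pr_mem]
    exact ⟨⟨(hP p hp).1.pos, (hP p hp).2.2⟩, (hP p hp).1⟩
  rw [← prod_subset h1]
  · apply prod_congr rfl
    intro p hp
    rw [hZs]
    simp only
    rw [if_pos hp, hcardP p hp]
    push_cast
    rfl
  · intro p _ hp
    rw [hZs]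
    simp only
    rw [if_neg hp, card_empty]
    simp

lemma one_sub_pos' {p : ℕ} (hp : p.Prime) : 0 < 1 - 1 / (p : ℝ) := by
  have h2 : (2 : ℝ) ≤ p := by exact_mod_cast hp.two_le
  rw [sub_pos, div_lt_one (by linarith)]
  linarith

lemma one_sub_le' (p : ℕ) : 1 - 1 / (p : ℝ) ≤ 1 := by
  have : (0 : ℝ) ≤ 1 / p := by positivity
  linarith

lemma phi_prod (P Q : Finset ℕ) (hP : ∀ p ∈ P, p.Prime) (hQ : ∀ p ∈ Q, p.Prime) (hd : Disjoint Q P) (R ps : ℕ)
    (hcov : ∀ p : ℕ, p.Prime → p ≤ R → p ≠ ps → p ∈ P ∨ p ∈ Q) :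
    (∏ p ∈ Q, (1 - 1 / (p : ℝ))) * ∏ p ∈ P, (1 - 1 / (p : ℝ)) ≤ 2 * V R := by
  classical
  rw [← prod_union hd]
  have hU : ∀ p ∈ Q ∪ P, p.Prime := by
    intro p hp
    rw [mem_union] at hp
    rcases hp with h | h
    · exact hQ p h
    · exact hP p h
  have hsub : (Pz R).erase ps ⊆ Q ∪ P := by
    intro p hp
    rw [mem_erase, mem_Pz] at hp
    rw [mem_union]
    rcases hcov p hp.2.1 hp.2.2 hp.1 with h | h
    · exact Or.inr h
    · exact Or.inl h
  have h1 : ∏ p ∈ Q ∪ P, (1 - 1 / (p : ℝ)) ≤ ∏ p ∈ (Pz R).erase ps, (1 - 1 / (p : ℝ)) := by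
    rw [← prod_sdiff hsub]
    apply mul_le_of_le_one_left
    · exact prod_nonneg fun p hp => (one_sub_pos' (mem_Pz.1 (mem_erase.1 hp).2).1).le
    · apply prod_le_one
      · intro p hp
        exact (one_sub_pos' (hU p (Finset.mem_sdiff.1 hp).1)).le
      · intro p _
        exact one_sub_le' p
  refine h1.trans ?_
  unfold V
  by_cases hps : ps ∈ Pz R
  · rw [← mul_prod_erase (Pz R) (fun p : ℕ => 1 - 1 / (p : ℝ)) hps]
    have h2 : (1 : ℝ) / 2 ≤ 1 - 1 / (ps : ℝ) := by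
      have h3 : (2 : ℝ) ≤ ps := by exact_mod_cast (mem_Pz.1 hps).1.two_le
      have h4 : 1 / (ps : ℝ) ≤ 1 / 2 := one_div_le_one_div_of_le (by norm_num) h3
      linarith
    have h5 : 0 ≤ ∏ p ∈ (Pz R).erase ps, (1 - 1 / (p : ℝ)) :=
      prod_nonneg fun p hp => (one_sub_pos' (mem_Pz.1 (mem_erase.1 hp).2).1).le
    nlinarith
  · rw [erase_eq_of_notMem hps]
    have h5 : 0 ≤ ∏ p ∈ Pz R, (1 - 1 / (p : ℝ)) :=
      prod_nonneg fun p hp => (one_sub_pos' (mem_Pz.1 hp).1).le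
    linarith

lemma totient_div (Q : Finset ℕ) (hQ : ∀ p ∈ Q, p.Prime) :
    ((∏ p ∈ Q, p : ℕ).totient : ℝ) = ((∏ p ∈ Q, p : ℕ) : ℝ) * ∏ p ∈ Q, (1 - 1 / (p : ℝ)) := by
  rw [totient_prod Q hQ]
  push_cast
  rw [← prod_mul_distrib]
  apply prod_congr rfl
  intro p hp
  have : (p : ℝ) ≠ 0 := by
    have := (hQ p hp).pos
    exact_mod_cast this.ne'
  field_simp

end Pool.Agent.Q117.GP
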