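import Pool.Agent.Q117.GP.SieveC

/-!
# Primes in a class modulo the big modulus outside at most `κ` classes modulo the other primes `≤ X ^ (1/t)`
-/

set_option autoImplicit false
set_option maxHeartbeats 4000000

namespace Pool.Agent.Q117.GP

open Finset Filter
open Pool.Agent.H378R2
open Pool.Agent.H318R2.Cr (V Pz mem_Pz V_pos cz_bounds)
open Pool.Agent.Q253.Thin (SysZ VZ_low scale)
open Pool.Agent.H312R2.RG (BVat)

/-- the eventual inequalities, `u = X ^ (1/1000)` -/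
theorem ev_u (κ : ℕ) (cV : ℝ) (hcV : 0 < cV) (N0 : ℕ) : ∃ X0 : ℝ, ∀ X : ℝ, X0 ≤ X → ∃ u : ℝ, 2 ≤ u ∧ X = u ^ 1000 ∧
    (∀ k : ℕ, X ^ ((k : ℝ) / 1000) = u ^ k) ∧ 10 ≤ Real.log X ∧ Real.log (3 * X) ≤ 2 * Real.log X ∧ Real.log (3 * X) ≤ u ∧
    200 / cV * (Real.log X) ^ (κ + 1) ≤ u ∧ 6400 / cV ≤ (Real.log X) ^ 2 ∧ (16 * (κ + 3) : ℝ) ≤ u ∧ (N0 : ℝ) ≤ Real.log (Real.log X) ∧
    Real.log (Real.log X) ≤ Real.log X / 1000 := by
  have hlog := Real.tendsto_log_atTop
  have hll : Tendsto (fun X : ℝ => Real.log (Real.log X)) atTop atTop := hlog.comp hlog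
  have hu : Tendsto (fun X : ℝ => X ^ (1 / 1000 : ℝ)) atTop atTop := tendsto_rpow_atTop (by norm_num)
  have e1 : ∀ᶠ X : ℝ in atTop, Real.log (3 * X) ≤ X ^ (1 / 1000 : ℝ) := by
    have h1 := (isLittleO_log_rpow_atTop (r := 1 / 1000) (by norm_num)).bound (show (0 : ℝ) < 1 / 2 by norm_num)
    filter_upwards [h1, eventually_ge_atTop (3 : ℝ)] with X h2 h3
    have h4 : 0 ≤ Real.log X := Real.log_nonneg (by linarith)
    rw [Real.norm_of_nonneg h4, Real.norm_of_nonneg (by positivity)] at h2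
    have h5 : Real.log (3 * X) ≤ Real.log X + Real.log X := by
      rw [Real.log_mul (by norm_num) (by linarith)]
      have : Real.log 3 ≤ Real.log X := Real.log_le_log (by norm_num) h3
      linarith
    linarith
  have e2 : ∀ᶠ X : ℝ in atTop, 200 / cV * (Real.log X) ^ (κ + 1) ≤ X ^ (1 / 1000 : ℝ) := by
    have h1 := (isLittleO_log_rpow_rpow_atTop (s := 1 / 1000) ((κ + 1 : ℕ) : ℝ) (by norm_num)).bound
      (show (0 : ℝ) < cV / 200 by positivity)
    filter_upwards [h1, eventually_ge_atTop (3 : ℝ)] with X h2 h3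
    have h4 : 0 ≤ Real.log X := Real.log_nonneg (by linarith)
    rw [Real.norm_of_nonneg (by positivity), Real.norm_of_nonneg (by positivity), Real.rpow_natCast] at h2
    calc 200 / cV * (Real.log X) ^ (κ + 1) ≤ 200 / cV * (cV / 200 * X ^ (1 / 1000 : ℝ)) := by gcongr
      _ = X ^ (1 / 1000 : ℝ) := by field_simp
  have e3 : ∀ᶠ X : ℝ in atTop, 6400 / cV ≤ (Real.log X) ^ 2 := by
    filter_upwards [hlog.eventually_ge_atTop (6400 / cV), hlog.eventually_ge_atTop 1] with X h1 h2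
    nlinarith
  have e4 : ∀ᶠ x : ℝ in atTop, Real.log x ≤ x / 1000 := by
    have h1 := Real.isLittleO_log_id_atTop.bound (show (0 : ℝ) < 1 / 1000 by norm_num)
    filter_upwards [h1, eventually_ge_atTop (1 : ℝ)] with x h2 h3
    rw [Real.norm_of_nonneg (Real.log_nonneg h3), id, Real.norm_of_nonneg (by linarith)] at h2
    linarith
  have hev := (((hu.eventually_ge_atTop 2).and (hlog.eventually_ge_atTop 10)).and (e1.and e2)).and
    ((e3.and (hu.eventually_ge_atTop (16 * (κ + 3) : ℝ))).and (((hll.eventually_ge_atTop (N0 : ℝ)).and (eventually_ge_atTop (3 : ℝ))).and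
      (hlog.eventually e4)))
  obtain ⟨X0, hX0⟩ := eventually_atTop.1 hev
  refine ⟨X0, ?_⟩
  intro X hX
  obtain ⟨⟨⟨a1, a2⟩, a3, a4⟩, ⟨a5, a6⟩, ⟨a7, a8⟩, a9⟩ := hX0 X hX
  have hXp : (0 : ℝ) < X := by linarith
  refine ⟨X ^ (1 / 1000 : ℝ), a1, ?_, ?_, a2, ?_, a3, a4, a5, a6, a7, a9⟩
  · rw [← Real.rpow_natCast, ← Real.rpow_mul hXp.le]
    norm_num
  · intro k
    rw [← Real.rpow_natCast, ← Real.rpow_mul hXp.le]
    congr 1
    ring
  · rw [Real.log_mul (by norm_num) (by linarith)]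
    have : Real.log 3 ≤ Real.log X := Real.log_le_log (by norm_num) a8
    linarith

open Classical in
/-- the primes `n ≡ b₀ (mod W)` of `(X, 3 X]` with `n mod p ∉ Om p` for all primes `p ≤ X ^ (1/t)` that do not divide `W` -/
noncomputable def GPr (t : ℕ) (X : ℝ) (W b0 : ℕ) (Om : ℕ → Finset ℕ) : Finset ℕ :=
  (Icc 1 ⌊3 * X⌋₊).filter (fun n : ℕ => X < (n : ℝ) ∧ n.Prime ∧ n ≡ b0 [MOD W] ∧
    ∀ p : ℕ, p.Prime → ¬ p ∣ W → (p : ℝ) ≤ X ^ (1 / (t : ℝ)) → n % p ∉ Om p)

/-- **Primes in a class modulo the big modulus outside `κ` classes modulo the other primes.** -/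
theorem sieveP (κ : ℕ) : ∃ t : ℕ, 1 ≤ t ∧ ∃ A' Z : ℕ, 2 ≤ Z ∧ ∃ X0 : ℝ, ∀ X : ℝ, X0 ≤ X → ∀ (ps : ℕ) (S : Finset ℕ),
    GoodP Z ps → GoodS X S → BVat A' X (WW X S ps) ps → ∀ b0 : ℕ, b0.Coprime (WW X S ps) → ∀ Om : ℕ → Finset ℕ, OmS κ Om →
    X ^ (99 / 100 : ℝ) ≤ ((GPr t X (WW X S ps) b0 Om).card : ℝ) := by
  classical
  obtain ⟨C0, hC0, hmain⟩ := main_sum
  obtain ⟨C1, hC1, hint⟩ := int_class
  obtain ⟨c₁, c₂, hc₁, hc₁₂, hVb⟩ := cz_bounds
  have hc₂ : 0 < c₂ := hc₁.trans_le hc₁₂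
  obtain ⟨cV, hcV, hV2⟩ := V2_low κ
  obtain ⟨b, hb⟩ : ∃ b : ℕ, b = (C0 + C1) * (κ + 2) + 3 := ⟨_, rfl⟩
  have hbC0 : C0 * (κ + 1) ≤ b := by
    rw [hb]
    nlinarith
  have hbC1 : C1 * (κ + 1 + 1) ≤ b := by
    rw [hb]
    nlinarith
  have hbκ : κ + 1 ≤ b := by
    rw [hb]
    nlinarith
  have hb3 : 3 ≤ b := by
    rw [hb]
    omega
  obtain ⟨E, hE⟩ : ∃ E : ℕ, E = 100 * (C0 + C1) * b := ⟨_, rfl⟩
  have hE1 : 1 ≤ E := by
    rw [hE]
    have : 0 < 100 * (C0 + C1) * b := by positivity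
    omega
  obtain ⟨Z, hZ⟩ : ∃ Z : ℕ, Z = b + ⌈22400 * (κ : ℝ) * E * c₂⌉₊ := ⟨_, rfl⟩
  obtain ⟨X0, hev⟩ := ev_u κ cV hcV (Z + 2)
  obtain ⟨X1, hX1⟩ := eventually_atTop.1 LPhi_ge
  have hpowE : ∀ᶠ X : ℝ in atTop, (2 : ℝ) ^ E ≤ X / 2 := by
    filter_upwards [eventually_ge_atTop (2 * (2 : ℝ) ^ E)] with X hX
    linarith
  obtain ⟨X2, hX2⟩ := eventually_atTop.1 hpowE
  refine ⟨2 * E, by omega, κ + 4, Z, by omega, max X0 (max X1 X2), ?_⟩
  intro X hX ps S hps hS hBV b0 hb0 Om hOm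
  have g0 : X0 ≤ X := (le_max_left _ _).trans hX
  have g1 : X1 ≤ X := ((le_max_left _ _).trans (le_max_right _ _)).trans hX
  have g2 : X2 ≤ X := ((le_max_right _ _).trans (le_max_right _ _)).trans hX
  obtain ⟨u, hu2, hXu, huk, hl10, hl3, hl3u, hcu, hc2l, hκu, hN0, hll⟩ := hev X g0
  have hLP := hX1 X g1
  have hE2 := hX2 X g2
  have hXp : 0 < X := by rw [hXu]; positivity
  have hX1' : 1 ≤ X := by
    rw [hXu]
    exact one_le_pow₀ (by linarith)
  have hlX : 0 < Real.log X := by linarith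
  obtain ⟨W, hW⟩ : ∃ W, W = WW X S ps := ⟨_, rfl⟩
  rw [← hW] at hBV hb0 ⊢
  have hWpos : 0 < W := by rw [hW]; exact WW_pos X S ps
  have hWle : (W : ℝ) ≤ u ^ 2 := by
    rw [hW]
    refine (WW_le X hX1' S ps).trans ?_
    have h1 := huk 2
    rw [← h1, Real.rpow_def_of_pos hXp]
    apply Real.exp_le_exp.2
    push_cast
    nlinarith
  have hφ0 : (0 : ℝ) < W.totient := by exact_mod_cast Nat.totient_pos.2 hWpos
  have hφW : (W.totient : ℝ) ≤ W := by exact_mod_cast Nat.totient_le W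
  -- J and R
  have hfl : (2 : ℕ) ^ E ≤ ⌊X⌋₊ := by
    apply Nat.le_floor
    push_cast
    linarith
  obtain ⟨J, hJ1, hJ2⟩ := scale E hE1 hfl
  obtain ⟨R, hR⟩ : ∃ R : ℕ, R = 2 ^ 2 ^ J := ⟨_, rfl⟩
  rw [← hR] at hJ1 hJ2
  have hR2 : 2 ≤ R := by
    rw [hR]
    calc 2 = 2 ^ 1 := rfl
      _ ≤ 2 ^ 2 ^ J := Nat.pow_le_pow_right (by norm_num) (Nat.one_le_two_pow)
  have hR0 : (0 : ℝ) < R := by exact_mod_cast (by omega : 0 < R)
  have hRE : (R : ℝ) ^ E ≤ X := by
    have h1 : ((R ^ E : ℕ) : ℝ) ≤ X := (Nat.cast_le.2 hJ1).trans (Nat.floor_le hXp.le)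
    exact_mod_cast h1
  have hRE2 : X < (R : ℝ) ^ (2 * E) := by
    have h1 : ⌊X⌋₊ + 1 ≤ R ^ (2 * E) := hJ2
    have h2 : ((⌊X⌋₊ + 1 : ℕ) : ℝ) ≤ ((R ^ (2 * E) : ℕ) : ℝ) := by exact_mod_cast h1
    have h3 := Nat.lt_floor_add_one X
    push_cast at h2
    linarith
  have hlR : 0 < Real.log R := Real.log_pos (by exact_mod_cast (by omega : 1 < R))
  have hE0 : (0 : ℝ) < E := by exact_mod_cast (by omega : 0 < E)
  have hlR1 : (E : ℝ) * Real.log R ≤ Real.log X := by
    have h1 := Real.log_le_log (by positivity) hRE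
    rwa [Real.log_pow] at h1
  have hlR2 : Real.log X ≤ 2 * E * Real.log R := by
    have h1 := Real.log_le_log hXp hRE2.le
    rw [Real.log_pow] at h1
    push_cast at h1
    linarith
  have hlRX : Real.log R ≤ Real.log X := by
    have : (1 : ℝ) ≤ E := by exact_mod_cast hE1
    nlinarith
  -- R ^ (C b) ≤ X ^ (1/100)
  have hlev : ∀ C : ℕ, C ≤ C0 + C1 → (R : ℝ) ^ (C * b) ≤ X ^ (1 / 100 : ℝ) := by
    intro C hC
    rw [← Real.rpow_natCast]
    rw [Real.rpow_def_of_pos hR0, Real.rpow_def_of_pos hXp]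
    apply Real.exp_le_exp.2
    have h1 : ((C * b : ℕ) : ℝ) ≤ E / 100 := by
      rw [hE]
      push_cast
      have h2 : (C : ℝ) ≤ C0 + C1 := by exact_mod_cast hC
      have h3 : (0 : ℝ) ≤ b := Nat.cast_nonneg _
      nlinarith
    calc Real.log R * ((C * b : ℕ) : ℝ) ≤ Real.log R * (E / 100) := by gcongr
      _ = (E * Real.log R) * (1 / 100) := by ring
      _ ≤ Real.log X * (1 / 100) := by gcongr
  have h100 : X ^ (1 / 100 : ℝ) = u ^ 10 := by
    rw [← huk 10]
    norm_num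
  have hRle : (R : ℝ) ≤ u ^ 10 := by
    have h1 := hlev 1 (by omega)
    rw [h100] at h1
    refine le_trans ?_ h1
    apply le_self_pow₀ (by exact_mod_cast (by omega : 1 ≤ R))
    rw [one_mul]
    omega
  have hJlog : (J : ℝ) + 2 ≤ 2 * Real.log X := by
    have h1 : J < 2 ^ J := Nat.lt_two_pow_self
    have h2 : Real.log R = (2 : ℝ) ^ J * Real.log 2 := by
      rw [hR]
      push_cast
      rw [Real.log_pow]
      push_cast
      ring
    have h3 : (J : ℝ) ≤ (2 : ℝ) ^ J := by exact_mod_cast h1.le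
    have h4 := Real.log_two_gt_d9
    have h5 : (J : ℝ) * (6 / 10) ≤ Real.log R := by
      rw [h2]
      nlinarith [pow_pos (show (0 : ℝ) < 2 by norm_num) J]
    linarith
  -- the small primes
  have hbZ : b ≤ Z := by rw [hZ]; omega
  have hZll : ((Z + 2 : ℕ) : ℝ) ≤ Real.log (Real.log X) := hN0
  have hsmall : ∀ p : ℕ, p.Prime → p ≤ b → p ∣ W := by
    intro p hp hpb
    rw [hW]
    unfold WW
    apply dvd_prod_of_mem
    unfold PW
    rw [mem_filter, mem_Icc]
    have hpZ : (p : ℝ) ≤ Real.log (Real.log X) := by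
      have : (p : ℝ) ≤ ((Z + 2 : ℕ) : ℝ) := by exact_mod_cast (by omega : p ≤ Z + 2)
      linarith
    have h1 : (1 : ℝ) ≤ Real.log (Real.log X) := by
      have : (1 : ℝ) ≤ ((Z + 2 : ℕ) : ℝ) := by exact_mod_cast (by omega : 1 ≤ Z + 2)
      linarith
    refine ⟨⟨hp.pos, ?_⟩, hp, ?_, ?_⟩
    · -- p ≤ yy X
      unfold yy
      apply Nat.le_floor
      linarith
    · intro hpS
      have h2 := (hS.1 p hpS).2.1
      have h3 : (p : ℝ) ≤ (Real.log (Real.log X)) ^ 3 := by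
        calc (p : ℝ) ≤ Real.log (Real.log X) := hpZ
          _ ≤ (Real.log (Real.log X)) ^ 3 := le_self_pow₀ h1 (by norm_num)
      have h4 : (p : ℝ) ≤ (z2 X : ℝ) := by
        unfold z2
        exact h3.trans (Nat.le_ceil _)
      have h5 : p ≤ z2 X := by exact_mod_cast h4
      omega
    · intro hpps
      rcases hps with h2 | h2
      · rw [h2] at hpps
        exact hp.one_lt.ne' hpps
      · omega
  -- the sieving primes
  obtain ⟨P, hP⟩ : ∃ P, P = SPr b J W ps := ⟨_, rfl⟩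
  have hPm : ∀ p ∈ P, (b < p ∧ p ≤ R) ∧ p.Prime ∧ ¬ p ∣ W ∧ p ≠ ps := by
    intro p hp
    rw [hP] at hp
    have := mem_SPr.1 hp
    rw [← hR] at this
    exact this
  obtain ⟨V1, hV1⟩ : ∃ V1 : ℝ, V1 = ∏ p ∈ P, (1 - ((Om p).card : ℝ) * (1 / ((p : ℝ) - 1))) := ⟨_, rfl⟩
  obtain ⟨V2, hV2d⟩ : ∃ V2 : ℝ, V2 = ∏ p ∈ P, (1 - (((Om p).card : ℝ) + 1) / p) := ⟨_, rfl⟩
  obtain ⟨Pi, hPi⟩ : ∃ Pi : ℝ, Pi = ∏ p ∈ P, (1 - 1 / (p : ℝ)) := ⟨_, rfl⟩
  have hV12 : V2 = V1 * Pi := by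
    rw [hV2d, hV1, hPi, ← prod_mul_distrib]
    apply prod_congr rfl
    intro p hp
    exact factor_split _ (hPm p hp).2.1.two_le
  have hPi1 : Pi ≤ 1 := by
    rw [hPi]
    apply prod_le_one
    · intro p hp
      exact (one_sub_pos' (hPm p hp).2.1).le
    · intro p _
      exact one_sub_le' p
  have hPi0 : 0 ≤ Pi := by
    rw [hPi]
    exact prod_nonneg fun p hp => (one_sub_pos' (hPm p hp).2.1).le
  have hV10 : 0 ≤ V1 := by
    rw [hV1]
    apply prod_nonneg
    intro p hp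
    obtain ⟨⟨h1, _⟩, h2, _⟩ := hPm p hp
    have h3 := hOm.card p h2
    have h4 : (Om p).card + 1 ≤ p := by omega
    have h5 : ((Om p).card : ℝ) + 1 ≤ p := by exact_mod_cast h4
    have h6 : (2 : ℝ) ≤ p := by exact_mod_cast h2.two_le
    rw [sub_nonneg, mul_one_div, div_le_one (by linarith)]
    linarith
  have hV2low : cV / (Real.log X) ^ (κ + 1) ≤ V2 := by
    have h1 := hV2 P b R Om (fun p hp => ⟨(hPm p hp).2.1, (hPm p hp).1.1, (hPm p hp).1.2⟩) hbκ hOm hR2
    rw [← hV2d] at h1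
    refine le_trans ?_ h1
    apply div_le_div_of_nonneg_left hcV.le (by positivity)
    gcongr
  have hV21 : V2 ≤ V1 := by
    rw [hV12]
    exact mul_le_of_le_one_right hV10 hPi1
  obtain ⟨M, hM⟩ : ∃ M : ℝ, M = LPhi X / W.totient * V1 := ⟨_, rfl⟩
  have hMX : X / 200 / W.totient * V1 ≤ M := by
    rw [hM]
    gcongr
  have hMlow1 : X / 200 / W.totient * (cV / (Real.log X) ^ (κ + 1)) ≤ M := by
    refine le_trans ?_ hMX
    apply mul_le_mul_of_nonneg_left (hV2low.trans hV21) (by positivity)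
  have hMlow : u ^ 997 ≤ M := by
    refine le_trans ?_ hMlow1
    have h1 : u ^ 998 / 200 ≤ X / 200 / W.totient := by
      rw [le_div_iff₀ hφ0, div_mul_eq_mul_div]
      apply div_le_div_of_nonneg_right _ (by norm_num)
      calc u ^ 998 * (W.totient : ℝ) ≤ u ^ 998 * u ^ 2 := by
            gcongr
            exact hφW.trans hWle
        _ = X := by rw [hXu]; ring
    have h2 : 200 / u ≤ cV / (Real.log X) ^ (κ + 1) := by
      rw [div_le_div_iff₀ (by linarith) (by positivity)]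
      have h3 : 200 * (Real.log X) ^ (κ + 1) = cV * (200 / cV * (Real.log X) ^ (κ + 1)) := by
        field_simp
      rw [h3]
      gcongr
    calc u ^ 997 = u ^ 998 / 200 * (200 / u) := by
          field_simp
      _ ≤ _ := by gcongr
  have hM0 : 0 < M := lt_of_lt_of_le (by positivity) hMlow
  -- the main sum
  obtain ⟨F, hF⟩ : ∃ F, F = (Cl X W b0).filter (fun n => ∀ p ∈ P, n % p ∉ Om p) := ⟨_, rfl⟩
  have hFsum : 3 / 4 * M ≤ ∑ n ∈ F, wt X n := by
    have h1 := hmain κ b J b (κ + 4) hbC0 hbC0 (by omega) X hX1' (by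
      have h2 := hlev C0 (by omega)
      rw [hR] at h2
      exact_mod_cast h2) (by linarith) W ps b0 hWpos (by
      rcases hps with h2 | h2
      · exact Or.inl h2
      · exact Or.inr h2.1) hb0 hBV Om hOm
    rw [← hP, ← hV1, ← hM, ← hF] at h1
    have h3 : (1 / 2 : ℝ) ^ b ≤ 1 / 8 := by
      calc (1 / 2 : ℝ) ^ b ≤ (1 / 2 : ℝ) ^ 3 := pow_le_pow_of_le_one (by norm_num) (by norm_num) hb3
        _ = 1 / 8 := by norm_num
    have h4 : ((J : ℝ) + 2) * (X / ((Nat.totient W : ℝ) * (Real.log X) ^ (κ + 4))) ≤ 1 / 8 * M := by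
      have h5 : ((J : ℝ) + 2) * (X / ((Nat.totient W : ℝ) * (Real.log X) ^ (κ + 4))) ≤
          2 * Real.log X * (X / ((Nat.totient W : ℝ) * (Real.log X) ^ (κ + 4))) := by gcongr
      have h6 : 2 * Real.log X * (X / ((Nat.totient W : ℝ) * (Real.log X) ^ (κ + 4))) =
          (400 / (cV * (Real.log X) ^ 2)) * (X / 200 / W.totient * (cV / (Real.log X) ^ (κ + 1))) := by
        field_simp
        ring
      have h7 : 400 / (cV * (Real.log X) ^ 2) ≤ 1 / 8 := by
        rw [div_le_div_iff₀ (by positivity) (by norm_num)]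
        have h8 : 6400 ≤ cV * (Real.log X) ^ 2 := by
          rw [div_le_iff₀ hcV] at hc2l
          linarith
        linarith
      have h9 : 0 ≤ X / 200 / W.totient * (cV / (Real.log X) ^ (κ + 1)) := by positivity
      calc _ ≤ _ := h5
        _ = _ := h6
        _ ≤ 1 / 8 * M := mul_le_mul h7 hMlow1 h9 (by norm_num)
    have h10 := (abs_le.1 h1).1
    have h11 : (1 / 2 : ℝ) ^ b * M ≤ 1 / 8 * M := by gcongr
    linarith
  -- single values and non-primes
  have hwt : ∀ n : ℕ, n ∈ Icc 1 ⌊3 * X⌋₊ → wt X n ≤ 1 / 2 * Real.log (3 * X) := by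
    intro n hn
    rw [mem_Icc] at hn
    have hn0 : (0 : ℝ) < n := by exact_mod_cast hn.1
    have h1 : (n : ℝ) ≤ 3 * X := (Nat.cast_le.2 hn.2).trans (Nat.floor_le (by positivity))
    have h2 : Real.log n ≤ Real.log (3 * X) := Real.log_le_log hn0 h1
    have h3 : ArithmeticFunction.vonMangoldt n ≤ Real.log (3 * X) := ArithmeticFunction.vonMangoldt_le_log.trans h2
    have h4 := Phi_le_half ((n : ℝ) / X)
    have h5 : 0 ≤ ArithmeticFunction.vonMangoldt n := ArithmeticFunction.vonMangoldt_nonneg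
    unfold wt
    exact mul_le_mul h4 h3 h5 (by norm_num)
  have hnp : ∀ G : Finset ℕ, G ⊆ Icc 1 ⌊3 * X⌋₊ → ∑ n ∈ G.filter (fun n => ¬ n.Prime), wt X n ≤ 4 * u ^ 501 := by
    intro G hG
    have h1 := sum_nonprime_le (3 * X) (by linarith)
    have h2 : ∑ n ∈ G.filter (fun n => ¬ n.Prime), wt X n ≤
        ∑ n ∈ (Icc 1 ⌊3 * X⌋₊).filter (fun n => ¬ n.Prime), ArithmeticFunction.vonMangoldt n := by
      calc ∑ n ∈ G.filter (fun n => ¬ n.Prime), wt X n ≤ ∑ n ∈ (Icc 1 ⌊3 * X⌋₊).filter (fun n => ¬ n.Prime), wt X n := by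
            apply sum_le_sum_of_subset_of_nonneg
            · intro n hn
              rw [mem_filter] at hn ⊢
              exact ⟨hG hn.1, hn.2⟩
            · intro n _ _
              exact wt_nonneg X n
        _ ≤ _ := by
            apply sum_le_sum
            intro n _
            unfold wt
            have h5 : 0 ≤ ArithmeticFunction.vonMangoldt n := ArithmeticFunction.vonMangoldt_nonneg
            have h6 := Pool.Agent.H378R2.Phi_le_one ((n : ℝ) / X)
            calc _ ≤ 1 * ArithmeticFunction.vonMangoldt n := mul_le_mul_of_nonneg_right h6 h5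
              _ = _ := one_mul _
    have h3 : Real.sqrt (3 * X) ≤ 2 * u ^ 500 := by
      rw [Real.sqrt_le_left (by positivity)]
      rw [mul_pow, ← pow_mul, hXu]
      have : 0 < u ^ 1000 := by positivity
      norm_num
      linarith
    have h4 : 0 ≤ Real.log (3 * X) := Real.log_nonneg (by linarith)
    calc _ ≤ _ := h2
      _ ≤ _ := h1
      _ ≤ 2 * (2 * u ^ 500) * u := by gcongr
      _ = 4 * u ^ 501 := by ring
  have hClI : Cl X W b0 ⊆ Icc 1 ⌊3 * X⌋₊ := filter_subset _ _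
  have hFI : F ⊆ Icc 1 ⌊3 * X⌋₊ := by
    rw [hF]
    exact (filter_subset _ _).trans hClI
  have hl3p : 0 ≤ Real.log (3 * X) := Real.log_nonneg (by linarith)
  have hprime_sum : ∀ G : Finset ℕ, G ⊆ Icc 1 ⌊3 * X⌋₊ →
      ∑ n ∈ G, wt X n ≤ 1 / 2 * Real.log (3 * X) * ((G.filter (fun n : ℕ => X < (n : ℝ) ∧ n.Prime)).card : ℝ) + 4 * u ^ 501 := by
    intro G hG
    rw [← sum_filter_add_sum_filter_not G (fun n => n.Prime)]
    apply add_le_add _ (hnp G hG)
    have h1 : ∑ n ∈ G.filter (fun n => n.Prime), wt X n = ∑ n ∈ G.filter (fun n : ℕ => X < (n : ℝ) ∧ n.Prime), wt X n := by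
      symm
      apply sum_subset
      · intro n hn
        rw [mem_filter] at hn ⊢
        exact ⟨hn.1, hn.2.2⟩
      · intro n hn hn2
        rw [mem_filter] at hn hn2
        have h2 : ¬ X < (n : ℝ) := fun h => hn2 ⟨hn.1, h, hn.2⟩
        unfold wt
        rw [Pool.Agent.H378R2.Phi_eq_zero_of_le (by positivity) (by
          rw [div_le_one hXp]
          exact not_lt.1 h2), zero_mul]
    rw [h1, mul_comm (1 / 2 * Real.log (3 * X)), ← nsmul_eq_mul]
    apply sum_le_card_nsmul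
    intro n hn
    exact hwt n (hG (mem_filter.1 hn).1)
  -- the exceptional prime
  obtain ⟨bad, hbad⟩ : ∃ bad, bad = F.filter (fun n => ps.Prime ∧ n % ps ∈ Om ps) := ⟨_, rfl⟩
  have hbadI : bad ⊆ Icc 1 ⌊3 * X⌋₊ := by
    rw [hbad]
    exact (filter_subset _ _).trans hFI
  have hbadc : 1 / 2 * Real.log (3 * X) * ((bad.filter (fun n : ℕ => X < (n : ℝ) ∧ n.Prime)).card : ℝ) ≤ 1 / 8 * M + (κ + 1) * u ^ 11 := by
    by_cases hpsp : ps.Prime
    swap
    · have h1 : bad = ∅ := by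
        rw [hbad]
        apply filter_eq_empty_iff.2
        intro n _ h
        exact hpsp h.1
      rw [h1, filter_empty, card_empty, Nat.cast_zero, mul_zero]
      positivity
    have hpsZ : Z < ps := by
      rcases hps with h2 | h2
      · rw [h2] at hpsp
        exact absurd hpsp Nat.not_prime_one
      · exact h2.2
    have hpsW : ¬ ps ∣ W := by
      rw [hW]
      unfold WW
      intro hd
      rw [hpsp.prime.dvd_finsetProd_iff] at hd
      obtain ⟨p, hp, hd⟩ := hd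
      unfold PW at hp
      rw [mem_filter] at hp
      exact hp.2.2.2 ((Nat.prime_dvd_prime_iff_eq hpsp hp.2.1).1 hd).symm
    have hcoW : W.Coprime ps := (Nat.coprime_comm.1 ((Nat.Prime.coprime_iff_not_dvd hpsp).2 hpsW))
    have hps0 : (0 : ℝ) < ps := by exact_mod_cast hpsp.pos
    obtain ⟨Q, hQ⟩ : ∃ Q : ℕ → Finset ℕ, Q = fun c => (Ioc 0 (0 + ⌊3 * X⌋₊)).filter
      (fun n => n % (W * ps) = (Nat.chineseRemainder hcoW b0 c : ℕ) % (W * ps) ∧ ∀ p ∈ P, n % p ∉ insert 0 (Om p)) := ⟨_, rfl⟩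
    have hQc : ∀ c, ((Q c).card : ℝ) ≤ 9 / 8 * (3 * X / (W * ps) * V2) + u ^ 10 := by
      intro c
      have h1 := hint (κ + 1) b J b hbC1 hbC1 P (fun p hp => ⟨(hPm p hp).2.1, (hPm p hp).1.1, by
          rw [← hR]
          exact (hPm p hp).1.2⟩) (fun p => insert 0 (Om p)) (by
        intro p hp
        refine ⟨(card_insert_le _ _).trans (by
          have := hOm.card p (hPm p hp).2.1
          omega), ?_⟩
        intro c hc
        rw [mem_insert] at hc
        rcases hc with hc | hc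
        · rw [hc]
          exact (hPm p hp).2.1.pos
        · exact hOm.lt p (hPm p hp).2.1 c hc) (W * ps) (Nat.chineseRemainder hcoW b0 c : ℕ) 0 ⌊3 * X⌋₊
        (Nat.mul_pos hWpos hpsp.pos) (by
          intro p hp hd
          obtain ⟨_, h2, h3, h4⟩ := hPm p hp
          rcases (h2.dvd_mul).1 hd with h5 | h5
          · exact h3 h5
          · exact h4 ((Nat.prime_dvd_prime_iff_eq h2 hpsp).1 h5))
      have e1 : ∏ p ∈ P, (1 - (((insert 0 (Om p)).card : ℕ) : ℝ) / p) = V2 := by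
        rw [hV2d]
        apply prod_congr rfl
        intro p hp
        rw [card_insert_of_notMem (hOm.zero p (hPm p hp).2.1)]
        push_cast
        rfl
      rw [e1] at h1
      have h2 := (abs_le.1 h1).2
      have h3 : (1 / 2 : ℝ) ^ b ≤ 1 / 8 := by
        calc (1 / 2 : ℝ) ^ b ≤ (1 / 2 : ℝ) ^ 3 := pow_le_pow_of_le_one (by norm_num) (by norm_num) hb3
          _ = 1 / 8 := by norm_num
      have h4 : ((2 : ℝ) ^ 2 ^ J) ^ (C1 * b) ≤ u ^ 10 := by
        have h5 := hlev C1 (by omega)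
        rw [h100, hR] at h5
        exact_mod_cast h5
      have h5 : ((⌊3 * X⌋₊ : ℕ) : ℝ) ≤ 3 * X := Nat.floor_le (by positivity)
      have hV20 : 0 ≤ V2 := le_trans (by positivity) hV2low
      have h6 : ((⌊3 * X⌋₊ : ℕ) : ℝ) / ((W * ps : ℕ) : ℝ) * V2 ≤ 3 * X / (W * ps) * V2 := by
        push_cast
        gcongr
      have h7 : 0 ≤ ((⌊3 * X⌋₊ : ℕ) : ℝ) / ((W * ps : ℕ) : ℝ) * V2 := by positivity
      have h8 : (1 / 2 : ℝ) ^ b * (((⌊3 * X⌋₊ : ℕ) : ℝ) / ((W * ps : ℕ) : ℝ) * V2) ≤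
          1 / 8 * (((⌊3 * X⌋₊ : ℕ) : ℝ) / ((W * ps : ℕ) : ℝ) * V2) := mul_le_mul_of_nonneg_right h3 h7
      rw [hQ]
      linarith
    have hsub : bad.filter (fun n : ℕ => X < (n : ℝ) ∧ n.Prime) ⊆ (Om ps).biUnion Q := by
      intro n hn
      rw [mem_filter, hbad, mem_filter, hF, mem_filter] at hn
      obtain ⟨⟨⟨h1, h2⟩, _, h3⟩, h4, h5⟩ := hn
      rw [mem_biUnion]
      refine ⟨n % ps, h3, ?_⟩
      unfold Cl at h1
      rw [mem_filter, mem_Icc] at h1
      rw [hQ, mem_filter, mem_Ioc, zero_add]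
      refine ⟨⟨h1.1.1, h1.1.2⟩, ?_, ?_⟩
      · have hcr := (Nat.chineseRemainder hcoW b0 (n % ps)).2
        have h6 : n ≡ (Nat.chineseRemainder hcoW b0 (n % ps) : ℕ) [MOD W * ps] := by
          rw [← Nat.modEq_and_modEq_iff_modEq_mul hcoW]
          exact ⟨h1.2.trans hcr.1.symm, (Nat.mod_modEq n ps).symm.trans hcr.2.symm⟩
        exact h6
      · intro p hp hcon
        rw [mem_insert] at hcon
        rcases hcon with hcon | hcon
        · have h6 : p ∣ n := Nat.dvd_of_mod_eq_zero hcon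
          have h7 := (Nat.prime_dvd_prime_iff_eq (hPm p hp).2.1 h5).1 h6
          have h8 : (n : ℝ) ≤ R := by exact_mod_cast (h7 ▸ (hPm p hp).1.2)
          have h9 : (R : ℝ) ≤ X := by
            refine hRle.trans ?_
            rw [hXu]
            exact pow_le_pow_right₀ (by linarith) (by norm_num)
          linarith
        · exact h2 p hp hcon
    have hcardb : ((bad.filter (fun n : ℕ => X < (n : ℝ) ∧ n.Prime)).card : ℝ) ≤ κ * (9 / 8 * (3 * X / (W * ps) * V2) + u ^ 10) := by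
      have h1 : ((bad.filter (fun n : ℕ => X < (n : ℝ) ∧ n.Prime)).card : ℝ) ≤ ∑ c ∈ Om ps, ((Q c).card : ℝ) := by
        have h2 := (card_le_card hsub).trans card_biUnion_le
        exact_mod_cast h2
      refine h1.trans ((sum_le_card_nsmul _ _ _ (fun c _ => hQc c)).trans ?_)
      rw [nsmul_eq_mul]
      have hV20 : 0 ≤ V2 := le_trans (by positivity) hV2low
      apply mul_le_mul_of_nonneg_right _ (by positivity)
      exact_mod_cast hOm.card ps hpsp
    -- the Mertens product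
    have hmert : (W.totient : ℝ) * Pi ≤ W * (4 * E * c₂ / Real.log X) := by
      have h1 : (W.totient : ℝ) = W * ∏ p ∈ PW X S ps, (1 - 1 / (p : ℝ)) := by
        rw [hW]
        unfold WW
        exact totient_div _ (fun p hp => (mem_filter.1 hp).2.1)
      have h2 := phi_prod P (PW X S ps) (fun p hp => (hPm p hp).2.1) (fun p hp => (mem_filter.1 hp).2.1) (by
        rw [disjoint_left]
        intro p hp hp2
        apply (hPm p hp2).2.2.1
        rw [hW]
        unfold WW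
        exact dvd_prod_of_mem _ hp) R ps (by
        intro p hp hpR hpps
        by_cases hd : p ∣ W
        · right
          rw [hW] at hd
          unfold WW at hd
          rw [hp.prime.dvd_finsetProd_iff] at hd
          obtain ⟨q, hq, hd⟩ := hd
          have h3 := (Nat.prime_dvd_prime_iff_eq hp (mem_filter.1 hq).2.1).1 hd
          rw [h3]
          exact hq
        · left
          rw [hP]
          apply mem_SPr.2
          refine ⟨⟨?_, by rw [← hR]; exact hpR⟩, hp, hd, hpps⟩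
          by_contra hcon
          exact hd (hsmall p hp (not_lt.1 hcon)))
      rw [← hPi] at h2
      have h3 := (hVb R hR2).2
      have h4 : V R ≤ c₂ / Real.log R := by
        rw [le_div_iff₀ hlR]
        exact h3
      have h5 : c₂ / Real.log R ≤ 2 * E * c₂ / Real.log X := by
        rw [div_le_div_iff₀ hlR hlX]
        nlinarith
      rw [h1, mul_assoc]
      apply mul_le_mul_of_nonneg_left _ (Nat.cast_nonneg W)
      calc _ ≤ 2 * V R := h2
        _ ≤ 2 * (2 * E * c₂ / Real.log X) := by linarith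
        _ = _ := by ring
    have hpsbig : 22400 * (κ : ℝ) * E * c₂ ≤ ps := by
      have h1 : (⌈22400 * (κ : ℝ) * E * c₂⌉₊ : ℝ) ≤ ps := by
        have : ⌈22400 * (κ : ℝ) * E * c₂⌉₊ ≤ ps := by
          rw [hZ] at hpsZ
          omega
        exact_mod_cast this
      exact (Nat.le_ceil _).trans h1
    have hW0 : (0 : ℝ) < W := by exact_mod_cast hWpos
    have hmainbad : 1 / 2 * Real.log (3 * X) * (κ * (9 / 8 * (3 * X / (W * ps) * V2))) ≤ 1 / 8 * M := by
      have h1 : Pi ≤ W * (4 * E * c₂ / Real.log X) / W.totient := by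
        rw [le_div_iff₀ hφ0]
        linarith
      have h0 : 0 ≤ κ * (9 / 8 * (3 * X / (W * ps) * (V1 * Pi))) := by positivity
      calc 1 / 2 * Real.log (3 * X) * (κ * (9 / 8 * (3 * X / (W * ps) * V2)))
          = 1 / 2 * Real.log (3 * X) * (κ * (9 / 8 * (3 * X / (W * ps) * (V1 * Pi)))) := by rw [hV12]
        _ ≤ 1 / 2 * (2 * Real.log X) * (κ * (9 / 8 * (3 * X / (W * ps) * (V1 * Pi)))) := by gcongr
        _ ≤ 1 / 2 * (2 * Real.log X) * (κ * (9 / 8 * (3 * X / (W * ps) * (V1 * (W * (4 * E * c₂ / Real.log X) / W.totient))))) := by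
            gcongr
        _ = (22400 * (κ : ℝ) * E * c₂ / ps) * (135 / 224000) * (X / W.totient * V1) := by
            field_simp
            ring
        _ ≤ 1 * (135 / 224000) * (X / W.totient * V1) := by
            gcongr
            rw [div_le_one hps0]
            exact hpsbig
        _ ≤ 1 / 8 * (X / 200 / W.totient * V1) := by
            have h2 : 0 ≤ X / W.totient * V1 := by positivity
            have h3 : X / 200 / W.totient * V1 = 1 / 200 * (X / W.totient * V1) := by ring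
            rw [h3]
            nlinarith
        _ ≤ 1 / 8 * M := by linarith
    calc 1 / 2 * Real.log (3 * X) * ((bad.filter (fun n : ℕ => X < (n : ℝ) ∧ n.Prime)).card : ℝ)
        ≤ 1 / 2 * Real.log (3 * X) * (κ * (9 / 8 * (3 * X / (W * ps) * V2) + u ^ 10)) := by gcongr
      _ = 1 / 2 * Real.log (3 * X) * (κ * (9 / 8 * (3 * X / (W * ps) * V2))) + 1 / 2 * Real.log (3 * X) * (κ * u ^ 10) := by ring
      _ ≤ 1 / 8 * M + 1 / 2 * u * (κ * u ^ 10) := by gcongr
      _ ≤ 1 / 8 * M + (κ + 1) * u ^ 11 := by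
          have h2 : 0 < u ^ 11 := by positivity
          have h3 : (0 : ℝ) ≤ κ := Nat.cast_nonneg _
          have h4 : 1 / 2 * u * (κ * u ^ 10) = 1 / 2 * κ * u ^ 11 := by ring
          rw [h4]
          nlinarith
  have hbads : ∑ n ∈ bad, wt X n ≤ 1 / 8 * M + (κ + 1) * u ^ 11 + 4 * u ^ 501 := by
    have := hprime_sum bad hbadI
    linarith
  have hu501 : (κ + 1) * u ^ 11 + 4 * u ^ 501 ≤ 1 / 8 * M := by
    have h1 : u ^ 11 ≤ u ^ 501 := pow_le_pow_right₀ (by linarith) (by norm_num)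
    have h2 : (κ + 1) * u ^ 11 + 4 * u ^ 501 ≤ (κ + 5) * u ^ 501 := by
      have h3 : (0 : ℝ) ≤ κ + 1 := by positivity
      nlinarith
    have h4 : (κ + 5) * u ^ 501 ≤ 1 / 8 * u ^ 502 := by
      have h5 : 0 < u ^ 501 := by positivity
      have h6 : u ^ 502 = u * u ^ 501 := by ring
      rw [h6]
      have h7 : (κ + 5 : ℝ) ≤ 1 / 8 * u := by linarith [Nat.cast_nonneg (α := ℝ) κ]
      nlinarith
    have h8 : u ^ 502 ≤ u ^ 997 := pow_le_pow_right₀ (by linarith) (by norm_num)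
    linarith
  obtain ⟨F2, hF2⟩ : ∃ F2, F2 = F.filter (fun n => ¬ (ps.Prime ∧ n % ps ∈ Om ps)) := ⟨_, rfl⟩
  have hF2I : F2 ⊆ Icc 1 ⌊3 * X⌋₊ := by
    rw [hF2]
    exact (filter_subset _ _).trans hFI
  have hsplit : ∑ n ∈ F, wt X n = ∑ n ∈ bad, wt X n + ∑ n ∈ F2, wt X n := by
    rw [hbad, hF2]
    exact (sum_filter_add_sum_filter_not F _ _).symm
  have hF2sum : 1 / 2 * M ≤ ∑ n ∈ F2, wt X n := by linarith
  have hF2G : F2.filter (fun n : ℕ => X < (n : ℝ) ∧ n.Prime) ⊆ GPr (2 * E) X W b0 Om := by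
    intro n hn
    rw [mem_filter, hF2, mem_filter, hF, mem_filter] at hn
    obtain ⟨⟨⟨h1, h2⟩, h3⟩, h4, h5⟩ := hn
    unfold Cl at h1
    rw [mem_filter] at h1
    unfold GPr
    rw [mem_filter]
    refine ⟨h1.1, h4, h5, h1.2, ?_⟩
    intro p hp hpW hpX
    have hpR : p ≤ R := by
      have h6 : X ^ (1 / ((2 * E : ℕ) : ℝ)) < R := by
        have h7 := Real.rpow_lt_rpow hXp.le hRE2 (show (0 : ℝ) < 1 / ((2 * E : ℕ) : ℝ) by positivity)
        rwa [← Real.rpow_natCast, ← Real.rpow_mul hR0.le, mul_one_div_cancel (by positivity), Real.rpow_one] at h7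
      have h8 : (p : ℝ) < R := lt_of_le_of_lt hpX h6
      exact_mod_cast h8.le
    by_cases hpps : p = ps
    · intro hcon
      rw [hpps] at hp hcon
      exact h3 ⟨hp, hcon⟩
    · apply h2
      rw [hP]
      apply mem_SPr.2
      refine ⟨⟨?_, by rw [← hR]; exact hpR⟩, hp, hpW, hpps⟩
      by_contra hcon
      exact hpW (hsmall p hp (not_lt.1 hcon))
  have hcardG : ((F2.filter (fun n : ℕ => X < (n : ℝ) ∧ n.Prime)).card : ℝ) ≤ ((GPr (2 * E) X W b0 Om).card : ℝ) := by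
    exact_mod_cast card_le_card hF2G
  have hfin := hprime_sum F2 hF2I
  have hfin2 : 1 / 4 * M ≤ 1 / 2 * u * ((GPr (2 * E) X W b0 Om).card : ℝ) := by
    have h1 : 1 / 2 * Real.log (3 * X) * ((F2.filter (fun n : ℕ => X < (n : ℝ) ∧ n.Prime)).card : ℝ) ≤
        1 / 2 * u * ((GPr (2 * E) X W b0 Om).card : ℝ) := by gcongr
    have h2 : 0 < (κ + 1) * u ^ 11 := by positivity
    linarith
  have h990 : X ^ (99 / 100 : ℝ) = u ^ 990 := by
    rw [← huk 990]
    norm_num
  rw [h990]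
  have h3 : 1 / 4 * u ^ 997 ≤ 1 / 2 * u * ((GPr (2 * E) X W b0 Om).card : ℝ) := by linarith
  have h4 : u ^ 997 = u ^ 6 * (u * u ^ 990) := by ring
  have h5 : (2 : ℝ) ≤ u ^ 6 := by
    calc (2 : ℝ) ≤ u := hu2
      _ ≤ u ^ 6 := le_self_pow₀ (by linarith) (by norm_num)
  have h6 : 0 < u * u ^ 990 := by positivity
  have h7 : 1 / 2 * (u * u ^ 990) ≤ 1 / 2 * u * ((GPr (2 * E) X W b0 Om).card : ℝ) := by
    rw [h4] at h3
    nlinarith
  have h8 : 0 < 1 / 2 * u := by linarith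
  have h9 : 1 / 2 * (u * u ^ 990) = 1 / 2 * u * u ^ 990 := by ring
  rw [h9] at h7
  exact le_of_mul_le_mul_left h7 h8

end Pool.Agent.Q117.GP
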